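import Pool.Agent.H520R2.Raz2

/-!
# Razborov's lower bound, final form
-/

namespace Pool.Agent.H520R2

open Finset

section final

variable {W : Type*} [Fintype W] [DecidableEq W]

theorem posG_not_cliqueFree {k q : ℕ} (emb : Fin k × Fin q → W) (hemb : Function.Injective emb)
    (π : Fin k → Fin q) : ¬ (posG emb π).CliqueFree k := by
  classical
  intro h
  apply h (univ.image (fun i : Fin k => emb (i, π i)))
  rw [SimpleGraph.isNClique_iff]
  constructor
  · intro a ha b hb hab
    rw [mem_coe, mem_image] at ha hb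
    obtain ⟨i, _, rfl⟩ := ha
    obtain ⟨j, _, rfl⟩ := hb
    exact ⟨hab, ⟨i, rfl⟩, ⟨j, rfl⟩⟩
  · rw [card_image_of_injective, card_univ, Fintype.card_fin]
    intro i j hij
    exact (Prod.mk.inj (hemb hij)).1

theorem negG_cliqueFree {κ k : ℕ} (hk : κ < k) (c : W → Fin κ) : (negG c).CliqueFree k := by
  intro S hS
  rw [SimpleGraph.isNClique_iff] at hS
  have hinj : Set.InjOn c (S : Set W) := by
    intro a ha b hb hab
    by_contra hne
    exact (hS.1 ha hb hne) hab
  have h1 : (S.image c).card = S.card := card_image_of_injOn hinj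
  have h2 : (S.image c).card ≤ κ := by
    calc _ ≤ (univ : Finset (Fin κ)).card := card_le_card (subset_univ _)
      _ = κ := by simp
  omega

open Classical in
/-- The `k`-clique function on graphs with vertex type `W`. -/
noncomputable def cliqueFn (W : Type*) (k : ℕ) : SimpleGraph W → Bool :=
  fun G => decide (¬ G.CliqueFree k)

theorem arith1 (l : ℕ) (hl : 1 ≤ l) :
    (((10 * l ^ 2) ^ l * l.factorial) ^ 2) ≤ (100 * l ^ 6) ^ l := by
  have h1 : l.factorial ≤ l ^ l := Nat.factorial_le_pow l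
  calc ((10 * l ^ 2) ^ l * l.factorial) ^ 2 ≤ ((10 * l ^ 2) ^ l * l ^ l) ^ 2 := by gcongr
    _ = (100 * l ^ 6) ^ l := by
        rw [← mul_pow, ← pow_mul, mul_comm l 2, pow_mul]
        congr 1
        ring

theorem clique_mono_lower {k s : ℕ} (hW : 200 * k ^ 4 ≤ Fintype.card W)
    (hf : MComp (GB W) s (cliqueFn W k)) (hk : 4 ≤ k) : 2 ^ (Nat.sqrt k) ≤ s := by
  classical
  set l := Nat.sqrt k with hl
  have hl2 : 2 ≤ l := by
    rw [hl, Nat.le_sqrt]; omega
  have hll : l * l ≤ k := Nat.sqrt_le k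
  by_contra hs
  push Not at hs
  have hcardq : k * (200 * l ^ 6) ≤ Fintype.card W := by
    refine le_trans ?_ hW
    have : l ^ 6 ≤ k ^ 3 := by
      calc l ^ 6 = (l * l) ^ 3 := by ring
        _ ≤ k ^ 3 := Nat.pow_le_pow_left hll 3
    calc k * (200 * l ^ 6) ≤ k * (200 * k ^ 3) := by gcongr
      _ = 200 * k ^ 4 := by ring
  have hemb : Nonempty (Fin k × Fin (200 * l ^ 6) ↪ W) := by
    apply Function.Embedding.nonempty_of_card_le
    simpa using hcardq
  obtain ⟨emb⟩ := hemb
  have hll1 : l * (l - 1) ≤ k - 1 := by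
    obtain ⟨r, hr⟩ : ∃ r, l = r + 1 := ⟨l - 1, by omega⟩
    rw [hr] at hll ⊢
    simp only [Nat.add_sub_cancel]
    have : (r + 1) * (r + 1) = (r + 1) * r + r + 1 := by ring
    omega
  have hpos6 : 1 ≤ l ^ 6 := Nat.one_le_pow _ _ (by omega)
  have hp2 : 2 ≤ 10 * l ^ 2 := by
    have : 1 ≤ l ^ 2 := Nat.one_le_pow _ _ (by omega)
    omega
  have hcore := raz_core (κ := k - 1) (l := l) (p := 10 * l ^ 2) (s := s) emb emb.injective
    (by omega) (by omega) hl2 hll1 hp2 (cliqueFn W k) hf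
    (fun π => by
      simp only [cliqueFn, decide_eq_true_eq]
      exact posG_not_cliqueFree emb emb.injective π)
    (fun c => by
      simp only [cliqueFn, decide_eq_false_iff_not, not_not]
      exact negG_cliqueFree (by omega) c)
  have hM := arith1 l (by omega)
  set M2 := ((10 * l ^ 2) ^ l * l.factorial) ^ 2 with hM2
  have hM2pos : 0 < M2 := by positivity
  rcases hcore with h | h
  · have h1 : s * M2 < 2 ^ l * M2 := Nat.mul_lt_mul_of_pos_right hs hM2pos
    have h2 : 2 ^ l * M2 ≤ (200 * l ^ 6) ^ (l + 1) := by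
      calc 2 ^ l * M2 ≤ 2 ^ l * (100 * l ^ 6) ^ l := Nat.mul_le_mul_left _ hM
        _ = (200 * l ^ 6) ^ l := by rw [← mul_pow]; congr 1; ring
        _ ≤ (200 * l ^ 6) ^ (l + 1) := Nat.pow_le_pow_right (by omega) (by omega)
    omega
  · have h1 : s * M2 < 2 ^ l * M2 := Nat.mul_lt_mul_of_pos_right hs hM2pos
    have hl2l : l ≤ 2 ^ (l - 1) := by
      obtain ⟨r, hr⟩ : ∃ r, l = r + 1 := ⟨l - 1, by omega⟩
      rw [hr]
      simp only [Nat.add_sub_cancel]
      exact Nat.lt_two_pow_self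
    have h2 : 2 * (2 ^ l * M2) ≤ 2 ^ (10 * l ^ 2) := by
      calc 2 * (2 ^ l * M2) ≤ 2 * (2 ^ l * (100 * l ^ 6) ^ l) := by gcongr
        _ ≤ 2 * (2 ^ l * (2 ^ 7 * (2 ^ (l - 1)) ^ 6) ^ l) := by gcongr; norm_num
        _ = 2 ^ (1 + l + (7 + (l - 1) * 6) * l) := by
            rw [← pow_mul, ← pow_add, ← pow_mul]
            rw [pow_add, pow_add]
            ring
        _ ≤ 2 ^ (10 * l ^ 2) := by
            apply Nat.pow_le_pow_right (by norm_num)
            obtain ⟨r, hr⟩ : ∃ r, l = r + 1 := ⟨l - 1, by omega⟩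
            rw [hr]
            simp only [Nat.add_sub_cancel]
            nlinarith
    omega

end final

end Pool.Agent.H520R2
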