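import Pool.Agent.H520R2.Circ
import Pool.Agent.H520R2.Raz3

/-!
# The chain argument
-/

namespace Pool.Agent.H520R2

open Finset

section chain

variable {V : Type*} (H : SimpleGraph V) {m v : ℕ} (φ : Fin m → (Fin v ↪ V))

open Classical in
/-- assemble block graphs into an input -/
noncomputable def asm (y : Fin m → SimpleGraph (Fin v)) : H.edgeSet → Bool := fun e =>
  decide (∃ i, ∃ e' ∈ (y i).edgeSet, Sym2.map (φ i) e' = e.1)

variable (hdisj : ∀ i j, i ≠ j → ∀ a b, φ i a ≠ φ j b)
  (hcl : ∀ i a b, a ≠ b → H.Adj (φ i a) (φ i b))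

include hcl in
theorem asm_adj (y : Fin m → SimpleGraph (Fin v)) (a b : V) :
    (subgraphOf H (asm H φ y)).Adj a b ↔ ∃ i a' b', (y i).Adj a' b' ∧ φ i a' = a ∧ φ i b' = b := by
  constructor
  · rintro ⟨h1, h2⟩
    simp only [asm, decide_eq_true_eq] at h2
    obtain ⟨i, e', he', hee⟩ := h2
    induction e' using Sym2.ind with
    | _ a' b' =>
      rw [SimpleGraph.mem_edgeSet] at he'
      rw [Sym2.map_mk, Sym2.eq_iff] at hee
      rcases hee with ⟨h3, h4⟩ | ⟨h3, h4⟩
      · exact ⟨i, a', b', he', h3, h4⟩
      · exact ⟨i, b', a', he'.symm, h4, h3⟩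
  · rintro ⟨i, a', b', hab, rfl, rfl⟩
    refine ⟨?_, ?_⟩
    · rw [SimpleGraph.mem_edgeSet]
      exact hcl i a' b' hab.ne
    · simp only [asm, decide_eq_true_eq]
      exact ⟨i, s(a', b'), hab, by rw [Sym2.map_mk]⟩

include hdisj hcl in
theorem asm_cliqueFree {k : ℕ} (hk : 2 ≤ k) (y : Fin m → SimpleGraph (Fin v))
    (hy : ∀ i, (y i).CliqueFree k) : (subgraphOf H (asm H φ y)).CliqueFree k := by
  classical
  intro S hS
  rw [SimpleGraph.isNClique_iff] at hS
  obtain ⟨hS1, hS2⟩ := hS
  obtain ⟨a, ha, b, hb, hab⟩ := one_lt_card.mp (show 1 < S.card by omega)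
  obtain ⟨i, a', b', _, ha', _⟩ := (asm_adj H φ hcl y a b).mp (hS1 ha hb hab)
  have hrange : ∀ c ∈ S, ∃ c', φ i c' = c := by
    intro c hc
    by_cases hac : a = c
    · exact ⟨a', by rw [ha', hac]⟩
    · obtain ⟨i2, a2, c2, _, ha2, hc2⟩ := (asm_adj H φ hcl y a c).mp (hS1 ha hc hac)
      have : i2 = i := by
        by_contra hne
        exact hdisj i2 i hne a2 a' (by rw [ha2, ha'])
      subst this
      exact ⟨c2, hc2⟩
  let S' : Finset (Fin v) := univ.filter (fun c' => φ i c' ∈ S)
  have hS' : S'.map (φ i) = S := by
    ext c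
    simp only [S', mem_map, mem_filter, mem_univ, true_and]
    constructor
    · rintro ⟨c', h, rfl⟩; exact h
    · intro hc
      obtain ⟨c', rfl⟩ := hrange c hc
      exact ⟨c', hc, rfl⟩
  apply hy i S'
  rw [SimpleGraph.isNClique_iff]
  constructor
  · intro c hc d hd hcd
    rw [mem_coe, mem_filter] at hc hd
    have hne : φ i c ≠ φ i d := fun h => hcd ((φ i).injective h)
    obtain ⟨i2, c2, d2, hcd2, hc2, hd2⟩ := (asm_adj H φ hcl y _ _).mp (hS1 hc.2 hd.2 hne)
    have : i2 = i := by
      by_contra hne
      exact hdisj i2 i hne c2 c hc2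
    subst this
    rw [← (φ i2).injective hc2, ← (φ i2).injective hd2]
    exact hcd2
  · rw [← hS2, ← hS', card_map]

include hcl in
theorem asm_clique {k : ℕ} (y : Fin m → SimpleGraph (Fin v)) (j : Fin m)
    (hy : ¬ (y j).CliqueFree k) : ∃ S : Finset V, (subgraphOf H (asm H φ y)).IsNClique k S := by
  classical
  rw [SimpleGraph.CliqueFree] at hy
  push Not at hy
  obtain ⟨S', hS'⟩ := hy
  rw [SimpleGraph.isNClique_iff] at hS'
  refine ⟨S'.map (φ j), ?_⟩
  rw [SimpleGraph.isNClique_iff]
  constructor
  · intro a ha b hb hab
    rw [mem_coe, mem_map] at ha hb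
    obtain ⟨a', ha', rfl⟩ := ha
    obtain ⟨b', hb', rfl⟩ := hb
    have hne : a' ≠ b' := fun h => hab (by rw [h])
    exact (asm_adj H φ hcl y _ _).mpr ⟨j, a', b', hS'.1 ha' hb' hne, rfl, rfl⟩
  · rw [card_map]; exact hS'.2

include hdisj in
/-- With all blocks but one fixed, every input variable is a constant or an adjacency. -/
theorem asm_base (y : Fin m → SimpleGraph (Fin v)) (j : Fin m) (f : (H.edgeSet → Bool) → Bool)
    (hf : f ∈ VB H.edgeSet) :
    f ∘ (fun G => asm H φ (Function.update y j G)) ∈ GB (Fin v) := by
  classical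
  rcases hf with ⟨b, rfl⟩ | ⟨e, rfl⟩
  · exact Or.inl ⟨b, rfl⟩
  · by_cases he : ∃ e', Sym2.map (φ j) e' = e.1
    · obtain ⟨e', he'⟩ := he
      right
      induction e' using Sym2.ind with
      | _ a b =>
        refine ⟨a, b, ?_⟩
        funext G
        simp only [Function.comp, asm, adjFn]
        congr 1
        apply propext
        constructor
        · rintro ⟨i, e2, he2, he2e⟩
          by_cases hij : i = j
          · subst hij
            rw [Function.update_self] at he2
            have : e2 = s(a, b) := Sym2.map.injective (φ i).injective (he2e.trans he'.symm)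
            rw [this, SimpleGraph.mem_edgeSet] at he2
            exact he2
          · exfalso
            induction e2 using Sym2.ind with
            | _ a2 b2 =>
              rw [← he', Sym2.map_mk, Sym2.map_mk, Sym2.eq_iff] at he2e
              rcases he2e with ⟨h3, _⟩ | ⟨h3, _⟩
              · exact hdisj i j hij _ _ h3
              · exact hdisj i j hij _ _ h3
        · intro hG
          refine ⟨j, s(a, b), ?_, he'⟩
          rw [Function.update_self]
          exact hG
    · left
      refine ⟨decide (∃ i, i ≠ j ∧ ∃ e' ∈ (y i).edgeSet, Sym2.map (φ i) e' = e.1), ?_⟩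
      funext G
      simp only [Function.comp, asm]
      congr 1
      apply propext
      constructor
      · rintro ⟨i, e2, he2, he2e⟩
        by_cases hij : i = j
        · subst hij
          exact absurd ⟨e2, he2e⟩ he
        · rw [Function.update_of_ne hij] at he2
          exact ⟨i, hij, e2, he2, he2e⟩
      · rintro ⟨i, hij, e2, he2, he2e⟩
        refine ⟨i, e2, ?_, he2e⟩
        rw [Function.update_of_ne hij]
        exact he2

include hdisj hcl in
theorem chain_main {k n : ℕ} (hk : 4 ≤ k) (hv : 200 * k ^ 4 ≤ v) (C : Circuit H.edgeSet n)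
    (out : Wire H.edgeSet n)
    (hC : ∀ x, out.eval x (C.vals x) = true ↔ ∃ S : Finset V, (subgraphOf H x).IsNClique k S)
    (hL : 2 * C.levels ≤ m + 1) : 2 ^ Nat.sqrt k ≤ C.size + C.cost + 2 := by
  classical
  by_contra hcon
  push Not at hcon
  have hout_false : ∀ y : Fin m → SimpleGraph (Fin v), (∀ i, (y i).CliqueFree k) →
      out.eval (asm H φ y) (C.vals (asm H φ y)) = false := by
    intro y hy
    rw [← Bool.not_eq_true, hC]
    rintro ⟨S, hS⟩
    exact asm_cliqueFree H φ hdisj hcl (by omega) y hy S hS
  have hout_true : ∀ (y : Fin m → SimpleGraph (Fin v)) (j : Fin m), ¬ (y j).CliqueFree k →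
      out.eval (asm H φ y) (C.vals (asm H φ y)) = true := by
    intro y j hy
    rw [hC]
    exact asm_clique H φ hcl y j hy
  have step : ∀ j ≤ m, ∃ y : Fin m → SimpleGraph (Fin v), (∀ i : Fin m, j ≤ i → y i = ⊥) ∧
      (∀ i, (y i).CliqueFree k) ∧ j ≤ C.frank out (asm H φ y) := by
    intro j
    induction j with
    | zero =>
      intro _
      refine ⟨fun _ => ⊥, fun _ _ => rfl, fun _ => ?_, Nat.zero_le _⟩
      intro S hS
      rw [SimpleGraph.isNClique_iff] at hS
      obtain ⟨a, ha, b, hb, hab⟩ := one_lt_card.mp (show 1 < S.card by omega)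
      exact hS.1 ha hb hab
    | succ j ih =>
      intro hj
      obtain ⟨y, hy1, hy2, hy3⟩ := ih (by omega)
      let J : Fin m := ⟨j, hj⟩
      -- positive graphs raise the rank
      have hpos : ∀ G : SimpleGraph (Fin v), ¬ G.CliqueFree k →
          j + 1 ≤ C.frank out (asm H φ (Function.update y J G)) := by
        intro G hG
        have h1 := C.frank_strict out (asm H φ y) (asm H φ (Function.update y J G)) (by
          intro e he
          simp only [asm, decide_eq_true_eq] at he ⊢
          obtain ⟨i, e', he', hee⟩ := he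
          refine ⟨i, e', ?_, hee⟩
          by_cases hiJ : i = J
          · exfalso
            rw [hiJ, hy1 J le_rfl] at he'
            simp at he'
          · rw [Function.update_of_ne hiJ]
            exact he') (hout_false y hy2)
          (hout_true _ J (by rw [Function.update_self]; exact hG))
        omega
      -- some clique-free graph keeps the rank
      have hneg : ∃ G : SimpleGraph (Fin v), G.CliqueFree k ∧
          j + 1 ≤ C.frank out (asm H φ (Function.update y J G)) := by
        by_contra hno
        push Not at hno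
        have hfun : cliqueFn (Fin v) k = (fun x => decide (j + 1 ≤ C.frank out x)) ∘
            (fun G => asm H φ (Function.update y J G)) := by
          funext G
          simp only [cliqueFn, Function.comp]
          congr 1
          apply propext
          constructor
          · exact hpos G
          · intro hG hfree
            have := hno G hfree
            omega
        have hcomp := (C.frank_comp out (j + 1)).comp (B' := GB (Fin v))
          (fun G => asm H φ (Function.update y J G)) (asm_base H φ hdisj y J)
        rw [← hfun] at hcomp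
        have := clique_mono_lower (by simpa using hv) hcomp hk
        omega
      obtain ⟨G, hG, hGr⟩ := hneg
      refine ⟨Function.update y J G, ?_, ?_, hGr⟩
      · intro i hi
        have hiJ : i ≠ J := by
          intro h
          rw [h] at hi
          simp only [J] at hi
          omega
        rw [Function.update_of_ne hiJ]
        exact hy1 i (by omega)
      · intro i
        by_cases hiJ : i = J
        · rw [hiJ, Function.update_self]; exact hG
        · rw [Function.update_of_ne hiJ]; exact hy2 i
  obtain ⟨y, _, hy2, hy3⟩ := step m le_rfl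
  have hm : 0 < m := by
    by_contra h0
    have hm0 : m = 0 := by omega
    have : 1 ≤ C.levels := by
      have := C.rank_lt (fun _ => false)
      omega
    omega
  -- the full graph has a clique
  have htop : out.eval (fun _ => true) (C.vals (fun _ => true)) = true := by
    rw [hC]
    have hkv : k ≤ v := by
      have : k ≤ 200 * k ^ 4 := by
        calc k = k ^ 1 := (pow_one k).symm
          _ ≤ k ^ 4 := Nat.pow_le_pow_right (by omega) (by omega)
          _ ≤ 200 * k ^ 4 := by omega
      omega
    obtain ⟨S', hS'⟩ : ∃ S' : Finset (Fin v), S'.card = k := by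
      obtain ⟨S', _, hS'⟩ := exists_subset_card_eq (s := (univ : Finset (Fin v))) (n := k)
        (by simpa using hkv)
      exact ⟨S', hS'⟩
    refine ⟨S'.map (φ ⟨0, hm⟩), ?_⟩
    rw [SimpleGraph.isNClique_iff]
    constructor
    · intro a ha b hb hab
      rw [mem_coe, mem_map] at ha hb
      obtain ⟨a', _, rfl⟩ := ha
      obtain ⟨b', _, rfl⟩ := hb
      have hne : a' ≠ b' := fun h => hab (by rw [h])
      exact ⟨by rw [SimpleGraph.mem_edgeSet]; exact hcl _ _ _ hne, rfl⟩
    · rw [card_map]; exact hS'
  have h1 := C.frank_strict out (asm H φ y) (fun _ => true) (fun _ _ => rfl)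
    (hout_false y hy2) htop
  have h2 := C.frank_lt out (fun _ => true)
  omega

end chain

end Pool.Agent.H520R2
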