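import Mathlib

/-!
# Boolean circuits whose NOT gates come in rounds: definitions

`Circuit ι n` : circuits over the input variables `ι` that have produced `n` wires.
-/

namespace Pool.Agent.H520R2

/-- A wire that can be fed into a gate: an input variable, a Boolean constant, or one of the `n`
wires produced so far. -/
inductive Wire (ι : Type*) (n : ℕ) : Type _
  | input (i : ι) : Wire ι n
  | const (b : Bool) : Wire ι n
  | gate (j : Fin n) : Wire ι n

/-- The value of a wire, given the input `x` and the values `v` of the wires produced so far. -/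
def Wire.eval {ι : Type*} {n : ℕ} (x : ι → Bool) (v : Fin n → Bool) : Wire ι n → Bool
  | .input i => x i
  | .const b => b
  | .gate j => v j

/-- Circuits of AND and OR gates of fan-in two and of rounds of NOT gates. The constructor `nots`
adds a round of `w` NOT gates that are applied in parallel to wires produced before. A circuit
with NOT gates used one at a time is the case in which all rounds have `w = 1`. -/
inductive Circuit (ι : Type*) : ℕ → Type _
  | empty : Circuit ι 0
  | and {n : ℕ} (C : Circuit ι n) (a b : Wire ι n) : Circuit ι (n + 1)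
  | or {n : ℕ} (C : Circuit ι n) (a b : Wire ι n) : Circuit ι (n + 1)
  | nots {n : ℕ} (C : Circuit ι n) (w : ℕ) (a : Fin w → Wire ι n) : Circuit ι (n + w)

/-- The values of all wires produced by the circuit on input `x`. -/
def Circuit.vals {ι : Type*} : {n : ℕ} → Circuit ι n → (ι → Bool) → Fin n → Bool
  | _, .empty, _ => Fin.elim0
  | _, .and C a b, x => Fin.snoc (α := fun _ => Bool) (C.vals x)
      (a.eval x (C.vals x) && b.eval x (C.vals x))
  | _, .or C a b, x => Fin.snoc (α := fun _ => Bool) (C.vals x)
      (a.eval x (C.vals x) || b.eval x (C.vals x))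
  | _, .nots C _ a, x => Fin.append (C.vals x) (fun j => !(a j).eval x (C.vals x))

/-- The number of AND gates plus the number of OR gates. -/
def Circuit.size {ι : Type*} : {n : ℕ} → Circuit ι n → ℕ
  | _, .empty => 0
  | _, .and C _ _ => C.size + 1
  | _, .or C _ _ => C.size + 1
  | _, .nots C _ _ => C.size

/-- The sizes of the rounds of NOT gates. -/
def Circuit.rounds {ι : Type*} : {n : ℕ} → Circuit ι n → List ℕ
  | _, .empty => []
  | _, .and C _ _ => C.rounds
  | _, .or C _ _ => C.rounds
  | _, .nots C w _ => w :: C.rounds

/-- The subgraph of the host graph `H` formed by the edges `e` with `x e = true`. -/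
def subgraphOf {V : Type*} (H : SimpleGraph V) (x : H.edgeSet → Bool) : SimpleGraph V where
  Adj a b := ∃ h : s(a, b) ∈ H.edgeSet, x ⟨s(a, b), h⟩ = true
  symm := ⟨fun a b h => by
    obtain ⟨h1, h2⟩ := h
    have he : s(b, a) = s(a, b) := Sym2.eq_swap
    refine ⟨he ▸ h1, ?_⟩
    rw [← h2]
    congr 1
    exact Subtype.ext he⟩
  loopless := ⟨fun a h => by
    obtain ⟨h1, _⟩ := h
    rw [SimpleGraph.mem_edgeSet] at h1
    exact H.loopless.irrefl a h1⟩

end Pool.Agent.H520R2
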