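import Pool.Agent.H520R2.Prog
import Pool.Agent.H520R2.NotDefs

/-!
# Boolean circuits whose NOT gates come in rounds

`Circuit ι n` : circuits over the input variables `ι` that have produced `n` wires.
-/

namespace Pool.Agent.H520R2

section proof

variable {ι : Type*}

/-- The functions that are free for a circuit: constants and variables. -/
def VB (ι : Type*) : Set ((ι → Bool) → Bool) :=
  {f | (∃ b, f = fun _ => b) ∨ ∃ i, f = fun x => x i}

/-- the number of levels, `∏ (w + 1)` over the rounds -/
def Circuit.levels {n : ℕ} (C : Circuit ι n) : ℕ := (C.rounds.map (· + 1)).prod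

/-- rank function -/
def Circuit.rank : {n : ℕ} → Circuit ι n → (ι → Bool) → ℕ
  | _, .empty, _ => 0
  | _, .and C _ _, x => C.rank x
  | _, .or C _ _, x => C.rank x
  | _, .nots C w a, x => C.rank x * (w + 1) +
      (List.ofFn (fun j => (a j).eval x (C.vals x))).countP (fun b => b)

/-- cost -/
def Circuit.cost : {n : ℕ} → Circuit ι n → ℕ
  | _, .empty => 0
  | _, .and C _ _ => C.cost
  | _, .or C _ _ => C.cost
  | _, .nots C w _ => C.cost + 8 * w ^ 3

theorem Circuit.rank_lt {n : ℕ} (C : Circuit ι n) (x : ι → Bool) : C.rank x < C.levels := by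
  induction C with
  | empty => simp [rank, levels, rounds]
  | and C a b ih => simpa [rank, levels, rounds] using ih
  | or C a b ih => simpa [rank, levels, rounds] using ih
  | nots C w a ih =>
    simp only [rank, levels, rounds, List.map_cons, List.prod_cons] at ih ⊢
    have h1 : (List.ofFn (fun j => (a j).eval x (C.vals x))).countP (fun b => b) ≤ w := by
      refine (List.countP_le_length).trans ?_
      simp
    calc _ ≤ C.rank x * (w + 1) + w := by omega
      _ < (C.rank x + 1) * (w + 1) := by ring_nf; omega
      _ ≤ _ := by
        rw [mul_comm]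
        exact Nat.mul_le_mul_left _ ih

theorem Circuit.cost_le {n : ℕ} (C : Circuit ι n) : C.cost ≤ 8 * C.rounds.sum ^ 3 := by
  induction C with
  | empty => simp [cost]
  | and C a b ih => simpa [cost, rounds] using ih
  | or C a b ih => simpa [cost, rounds] using ih
  | nots C w a ih =>
    simp only [cost, rounds, List.sum_cons]
    calc C.cost + 8 * w ^ 3 ≤ 8 * C.rounds.sum ^ 3 + 8 * w ^ 3 := by omega
      _ ≤ 8 * (w + C.rounds.sum) ^ 3 := by
        have : (w + C.rounds.sum) ^ 3 = w ^ 3 + C.rounds.sum ^ 3 +
          (3 * w ^ 2 * C.rounds.sum + 3 * w * C.rounds.sum ^ 2) := by ring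
        rw [this]
        omega

/-- the pseudo-value of a wire -/
def Wire.pseudo {n : ℕ} (ρ : Fin n → (ι → Bool) → Bool) : Wire ι n → (ι → Bool) → Bool
  | .input i => fun x => x i
  | .const b => fun _ => b
  | .gate j => ρ j

theorem Wire.pseudo_av {n : ℕ} {L : List ((ι → Bool) → Bool)} {ρ : Fin n → (ι → Bool) → Bool}
    (h : ∀ j, Av (VB ι) L (ρ j)) (a : Wire ι n) : Av (VB ι) L (a.pseudo ρ) := by
  cases a with
  | input i => exact Or.inl (Or.inr ⟨i, rfl⟩)
  | const b => exact Or.inl (Or.inl ⟨b, rfl⟩)
  | gate j => exact h j

theorem Wire.pseudo_eq {n : ℕ} {ρ : Fin n → (ι → Bool) → Bool} {x : ι → Bool}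
    {v : Fin n → Bool} (h : ∀ j, ρ j x = v j) (a : Wire ι n) : a.pseudo ρ x = a.eval x v := by
  cases a with
  | input i => rfl
  | const b => rfl
  | gate j => exact h j

theorem thr_multi {X : Type*} {B : Set (X → Bool)} {L : List (X → Bool)} (hL : MProg B L)
    (Gs : List (List (X → Bool))) (hg : ∀ gs ∈ Gs, ∀ g ∈ gs, Av B L g)
    (htrue : (fun _ => true) ∈ B)
    (hfalse : (fun _ => false) ∈ B) (c : ℕ) :
    ∃ L', MProg B (L' ++ L) ∧ L'.length ≤ 2 * c * (Gs.map List.length).sum ∧
      ∀ gs ∈ Gs, ∀ b ≤ c, Av B (L' ++ L) (thr gs b) := by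
  induction Gs with
  | nil => exact ⟨[], by simpa using hL, by simp, by simp⟩
  | cons gs Gs ih =>
    obtain ⟨L1, hL1, hlen1, hav1⟩ := ih (fun f hf => hg f (List.mem_cons_of_mem _ hf))
    obtain ⟨L2, hL2, hlen2, hav2⟩ := thr_prog hL1 gs
      (fun g hgg => (hg gs List.mem_cons_self g hgg).mono L1) htrue hfalse c
    refine ⟨L2 ++ L1, by simpa using hL2, ?_, ?_⟩
    · simp only [List.length_append, List.map_cons, List.sum_cons]
      calc _ ≤ 2 * c * gs.length + 2 * c * (Gs.map List.length).sum := by omega
        _ = _ := by ring
    · intro gs' hgs' b hb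
      rcases List.mem_cons.mp hgs' with rfl | hgs'
      · simpa using hav2 b hb
      · have := (hav1 gs' hgs' b hb).mono L2
        simpa using this

theorem cnt_ofFn {X : Type*} {w : ℕ} (g : Fin w → X → Bool) (x : X) :
    cnt (List.ofFn g) x = (List.ofFn (fun j => g j x)).countP (fun b => b) := by
  have : List.ofFn (fun j => g j x) = (List.ofFn g).map (fun h => h x) := by
    rw [List.map_ofFn]; rfl
  rw [this, List.countP_map]
  rfl

theorem cnt_eraseIdx {X : Type*} {w : ℕ} (g : Fin w → X → Bool) (x : X) (j : Fin w) :
    cnt (List.ofFn g) x = cnt ((List.ofFn g).eraseIdx j) x + (if g j x = true then 1 else 0) := by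
  have hj : (j : ℕ) < (List.ofFn g).length := by simp
  have hperm := List.getElem_cons_eraseIdx_perm hj
  have h1 : cnt (List.ofFn g) x =
      cnt ((List.ofFn g)[(j : ℕ)] :: (List.ofFn g).eraseIdx j) x :=
    (List.Perm.countP_eq _ hperm).symm
  rw [h1, cnt_cons]
  simp

/-- Main invariant. -/
theorem Circuit.main_inv {n : ℕ} (C : Circuit ι n) (lam : ℕ) :
    ∃ (L : List ((ι → Bool) → Bool)) (ρ : Fin n → (ι → Bool) → Bool),
      MProg (VB ι) L ∧ L.length ≤ C.size + C.cost ∧
      Av (VB ι) L (fun x => decide (lam ≤ C.rank x)) ∧
      Av (VB ι) L (fun x => decide (lam + 1 ≤ C.rank x)) ∧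
      (∀ j, Av (VB ι) L (ρ j)) ∧
      ∀ x, C.rank x = lam → ∀ j, ρ j x = C.vals x j := by
  induction C generalizing lam with
  | empty =>
    refine ⟨[], Fin.elim0, MProg.nil, by simp, ?_, ?_, fun j => j.elim0, fun x _ j => j.elim0⟩
    · left; left
      exact ⟨decide (lam ≤ 0), rfl⟩
    · left; left
      exact ⟨decide (lam + 1 ≤ 0), rfl⟩
  | and C a b ih =>
    obtain ⟨L, ρ, hL, hlen, h1, h2, h3, h4⟩ := ih lam
    refine ⟨(fun x => a.pseudo ρ x && b.pseudo ρ x) :: L,
      Fin.snoc (α := fun _ => (ι → Bool) → Bool) ρ (fun x => a.pseudo ρ x && b.pseudo ρ x),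
      MProg.and hL (Wire.pseudo_av h3 a) (Wire.pseudo_av h3 b), ?_, h1.cons _, h2.cons _, ?_, ?_⟩
    · simp only [List.length_cons, size, cost]; omega
    · intro j
      refine Fin.lastCases ?_ (fun j => ?_) j
      · rw [Fin.snoc_last]
        exact Or.inr List.mem_cons_self
      · rw [Fin.snoc_castSucc]
        exact (h3 j).cons _
    · intro x hx j
      have h5 := h4 x hx
      refine Fin.lastCases ?_ (fun j => ?_) j
      · simp only [vals, Fin.snoc_last]
        rw [Wire.pseudo_eq h5 a, Wire.pseudo_eq h5 b]
      · simp only [vals, Fin.snoc_castSucc]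
        exact h5 j
  | or C a b ih =>
    obtain ⟨L, ρ, hL, hlen, h1, h2, h3, h4⟩ := ih lam
    refine ⟨(fun x => a.pseudo ρ x || b.pseudo ρ x) :: L,
      Fin.snoc (α := fun _ => (ι → Bool) → Bool) ρ (fun x => a.pseudo ρ x || b.pseudo ρ x),
      MProg.or hL (Wire.pseudo_av h3 a) (Wire.pseudo_av h3 b), ?_, h1.cons _, h2.cons _, ?_, ?_⟩
    · simp only [List.length_cons, size, cost]; omega
    · intro j
      refine Fin.lastCases ?_ (fun j => ?_) j
      · rw [Fin.snoc_last]
        exact Or.inr List.mem_cons_self
      · rw [Fin.snoc_castSucc]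
        exact (h3 j).cons _
    · intro x hx j
      have h5 := h4 x hx
      refine Fin.lastCases ?_ (fun j => ?_) j
      · simp only [vals, Fin.snoc_last]
        rw [Wire.pseudo_eq h5 a, Wire.pseudo_eq h5 b]
      · simp only [vals, Fin.snoc_castSucc]
        exact h5 j
  | @nots n C w a ih =>
    rcases Nat.eq_zero_or_pos w with rfl | hw
    · obtain ⟨L, ρ, hL, hlen, h1, h2, h3, h4⟩ := ih lam
      have hrank : ∀ x, (C.nots 0 a).rank x = C.rank x := by
        intro x; simp [rank]
      refine ⟨L, ρ, hL, ?_, ?_, ?_, h3, ?_⟩
      · simp only [size, cost]; omega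
      · simpa [hrank] using h1
      · simpa [hrank] using h2
      · intro x hx j
        rw [hrank] at hx
        rw [h4 x hx j]
        simp only [vals]
        exact (Fin.append_left (C.vals x) (fun j => !(a j).eval x (C.vals x)) j).symm
    · -- decompose the level
      set lam' := lam / (w + 1) with hlam'
      set b := lam % (w + 1) with hb
      have hbw : b < w + 1 := Nat.mod_lt _ (by omega)
      have hlamdec : lam = lam' * (w + 1) + b := by
        rw [hlam', hb, mul_comm]
        exact (Nat.div_add_mod lam (w + 1)).symm
      obtain ⟨L, ρ, hL, hlen, h1, h2, h3, h4⟩ := ih lam'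
      let g : Fin w → (ι → Bool) → Bool := fun j => (a j).pseudo ρ
      let Gs : List (List ((ι → Bool) → Bool)) :=
        (List.ofFn g) :: (List.ofFn (fun j : Fin w => (List.ofFn g).eraseIdx j))
      have hgav : ∀ f ∈ List.ofFn g, Av (VB ι) L f := by
        intro f hf
        rw [List.mem_ofFn] at hf
        obtain ⟨j, rfl⟩ := hf
        exact Wire.pseudo_av h3 (a j)
      have hGs : ∀ gs ∈ Gs, ∀ f ∈ gs, Av (VB ι) L f := by
        intro gs hgs f hf
        rcases List.mem_cons.mp hgs with rfl | hgs
        · exact hgav f hf
        · rw [List.mem_ofFn] at hgs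
          obtain ⟨j, rfl⟩ := hgs
          exact hgav f (List.mem_of_mem_eraseIdx hf)
      have htrue : (fun _ => true) ∈ VB ι := Or.inl ⟨true, rfl⟩
      have hfalse : (fun _ => false) ∈ VB ι := Or.inl ⟨false, rfl⟩
      obtain ⟨L', hL', hlen', hav'⟩ := thr_multi hL Gs hGs htrue hfalse (w + 1)
      have hsum : (Gs.map List.length).sum ≤ w ^ 2 := by
        have h5 : ∀ j : Fin w, ((List.ofFn g).eraseIdx j).length = w - 1 := by
          intro j
          rw [List.length_eraseIdx_of_lt (by simp)]
          simp
        have h6 : (List.ofFn (fun j : Fin w => (List.ofFn g).eraseIdx j)).map List.length =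
            List.replicate w (w - 1) := by
          rw [List.map_ofFn, ← List.ofFn_const]
          congr 1
          funext j
          exact h5 j
        simp only [Gs, List.map_cons, List.length_ofFn, List.sum_cons, h6, List.sum_replicate,
          smul_eq_mul]
        obtain ⟨r, rfl⟩ : ∃ r, w = r + 1 := ⟨w - 1, by omega⟩
        simp only [Nat.add_sub_cancel]
        nlinarith
      -- the new threshold functions
      have hT : ∀ c ≤ w + 1, Av (VB ι) (L' ++ L) (thr (List.ofFn g) c) := fun c hc =>
        hav' _ List.mem_cons_self c hc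
      have hge := h1.mono L'
      have hgt := h2.mono L'
      have p1 := MProg.and hL' hge (hT b (by omega))
      have p2 := MProg.or p1 (hgt.cons _) (Or.inr List.mem_cons_self)
      have p3 := MProg.and p2 ((hge.cons _).cons _) (((hT (b + 1) (by omega)).cons _).cons _)
      have p4 := MProg.or p3 (((hgt.cons _).cons _).cons _) (Or.inr List.mem_cons_self)
      -- the rank of the new circuit
      have hrank : ∀ x, (C.nots w a).rank x = C.rank x * (w + 1) +
          (List.ofFn (fun j => (a j).eval x (C.vals x))).countP (fun b => b) := fun x => rfl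
      have hcnt : ∀ x, C.rank x = lam' →
          (List.ofFn (fun j => (a j).eval x (C.vals x))).countP (fun b => b) =
            cnt (List.ofFn g) x := by
        intro x hx
        rw [cnt_ofFn]
        congr 1
        congr 1
        funext j
        exact (Wire.pseudo_eq (h4 x hx) (a j)).symm
      have hcle : ∀ x,
          (List.ofFn (fun j => (a j).eval x (C.vals x))).countP (fun b => b) ≤ w := by
        intro x
        refine (List.countP_le_length).trans ?_
        simp
      have hkey : ∀ (c : ℕ), c ≤ w + 1 → ∀ x,
          decide (lam' * (w + 1) + c ≤ (C.nots w a).rank x) =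
          ((decide (lam' + 1 ≤ C.rank x)) ||
            ((decide (lam' ≤ C.rank x)) && thr (List.ofFn g) c x)) := by
        intro c hc x
        rw [hrank]
        have hx' := hcle x
        rcases Nat.lt_trichotomy (C.rank x) lam' with hlt | heq | hgt'
        · have e1 : ¬ (lam' + 1 ≤ C.rank x) := by omega
          have e2 : ¬ (lam' ≤ C.rank x) := by omega
          have e3 : ¬ (lam' * (w + 1) + c ≤ C.rank x * (w + 1) +
              (List.ofFn (fun j => (a j).eval x (C.vals x))).countP (fun b => b)) := by
            intro hcon
            have : (C.rank x + 1) * (w + 1) ≤ lam' * (w + 1) := Nat.mul_le_mul_right _ hlt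
            have e4 : (C.rank x + 1) * (w + 1) = C.rank x * (w + 1) + (w + 1) := by ring
            omega
          simp [e1, e2, e3]
        · have e1 : ¬ (lam' + 1 ≤ C.rank x) := by omega
          have e2 : lam' ≤ C.rank x := by omega
          simp only [e1, e2, decide_false, decide_true, Bool.false_or, Bool.true_and, thr]
          rw [hcnt x heq, heq]
          congr 1
          apply propext
          omega
        · have e1 : lam' + 1 ≤ C.rank x := by omega
          have e3 : lam' * (w + 1) + c ≤ C.rank x * (w + 1) +
              (List.ofFn (fun j => (a j).eval x (C.vals x))).countP (fun b => b) := by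
            have : (lam' + 1) * (w + 1) ≤ C.rank x * (w + 1) := Nat.mul_le_mul_right _ e1
            have e4 : (lam' + 1) * (w + 1) = lam' * (w + 1) + (w + 1) := by ring
            omega
          simp only [e1, e3, decide_true, Bool.true_or]
      refine ⟨_ :: _ :: _ :: _ :: (L' ++ L), Fin.append ρ
        (fun j => thr ((List.ofFn g).eraseIdx j) b), p4, ?_, ?_, ?_, ?_, ?_⟩
      · simp only [List.length_cons, List.length_append, size, cost]
        have h7 : L'.length ≤ 2 * (w + 1) * w ^ 2 := hlen'.trans (Nat.mul_le_mul_left _ hsum)
        have h8 : 2 * (w + 1) * w ^ 2 + 4 ≤ 8 * w ^ 3 := by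
          obtain ⟨r, rfl⟩ : ∃ r, w = r + 1 := ⟨w - 1, by omega⟩
          ring_nf
          omega
        omega
      · -- ge
        right
        have : (fun x => decide (lam ≤ (C.nots w a).rank x)) =
            (fun x => (decide (lam' + 1 ≤ C.rank x)) ||
              ((decide (lam' ≤ C.rank x)) && thr (List.ofFn g) b x)) := by
          funext x
          rw [← hkey b (by omega) x, ← hlamdec]
        rw [this]
        simp
      · right
        have : (fun x => decide (lam + 1 ≤ (C.nots w a).rank x)) =
            (fun x => (decide (lam' + 1 ≤ C.rank x)) ||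
              ((decide (lam' ≤ C.rank x)) && thr (List.ofFn g) (b + 1) x)) := by
          funext x
          rw [← hkey (b + 1) (by omega) x, ← add_assoc, ← hlamdec]
        rw [this]
        simp
      · intro j
        refine Fin.addCases (fun j => ?_) (fun j => ?_) j
        · rw [Fin.append_left]
          exact (((((h3 j).mono L').cons _).cons _).cons _).cons _
        · rw [Fin.append_right]
          have := hav' ((List.ofFn g).eraseIdx j) (by
            refine List.mem_cons_of_mem _ ?_
            rw [List.mem_ofFn]
            exact ⟨j, rfl⟩) b (by omega)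
          exact (((this.cons _).cons _).cons _).cons _
      · intro x hx j
        rw [hrank] at hx
        have hx' := hcle x
        have hr : C.rank x = lam' := by
          have h9 : (C.rank x * (w + 1) +
            (List.ofFn (fun j => (a j).eval x (C.vals x))).countP (fun b => b)) / (w + 1) =
              C.rank x := by
            rw [mul_comm, Nat.mul_add_div (by omega)]
            rw [Nat.div_eq_of_lt (by omega)]
            rfl
          rw [hx] at h9
          exact h9.symm
        have hc : cnt (List.ofFn g) x = b := by
          rw [← hcnt x hr]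
          rw [hr] at hx
          omega
        refine Fin.addCases (fun j => ?_) (fun j => ?_) j
        · simp only [vals, Fin.append_left]
          exact h4 x hr j
        · simp only [vals, Fin.append_right]
          have h10 := cnt_eraseIdx g x j
          rw [hc] at h10
          have h11 : g j x = (a j).eval x (C.vals x) := Wire.pseudo_eq (h4 x hr) (a j)
          rw [← h11]
          simp only [thr]
          by_cases hgj : g j x = true
          · rw [if_pos hgj] at h10
            rw [hgj]
            simp only [Bool.not_true, decide_eq_false_iff_not]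
            omega
          · rw [if_neg hgj] at h10
            rw [Bool.not_eq_true] at hgj
            rw [hgj]
            simp only [Bool.not_false, decide_eq_true_eq]
            omega

/-- the final rank, including the output -/
def Circuit.frank {n : ℕ} (C : Circuit ι n) (out : Wire ι n) (x : ι → Bool) : ℕ :=
  2 * C.rank x + (if out.eval x (C.vals x) = true then 1 else 0)

theorem Circuit.frank_lt {n : ℕ} (C : Circuit ι n) (out : Wire ι n) (x : ι → Bool) :
    C.frank out x < 2 * C.levels := by
  have := C.rank_lt x
  unfold frank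
  split_ifs <;> omega

theorem Circuit.frank_comp {n : ℕ} (C : Circuit ι n) (out : Wire ι n) (μ : ℕ) :
    MComp (VB ι) (C.size + C.cost + 2) (fun x => decide (μ ≤ C.frank out x)) := by
  obtain ⟨L, ρ, hL, hlen, h1, h2, h3, h4⟩ := C.main_inv (μ / 2)
  set lam := μ / 2 with hlam
  have hμ : μ = 2 * lam + μ % 2 := (Nat.div_add_mod μ 2).symm
  rcases Nat.mod_two_eq_zero_or_one μ with h0 | h0
  · refine ⟨L, hL, by omega, ?_⟩
    have : (fun x => decide (μ ≤ C.frank out x)) = (fun x => decide (lam ≤ C.rank x)) := by
      funext x
      congr 1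
      apply propext
      unfold frank
      split_ifs <;> omega
    rw [this]
    exact h1
  · have p1 := MProg.and hL h1 (Wire.pseudo_av h3 out)
    have p2 := MProg.or p1 (h2.cons _) (Or.inr List.mem_cons_self)
    refine ⟨_, p2, by simp only [List.length_cons]; omega, ?_⟩
    right
    have : (fun x => decide (μ ≤ C.frank out x)) =
        (fun x => decide (lam + 1 ≤ C.rank x) ||
          (decide (lam ≤ C.rank x) && out.pseudo ρ x)) := by
      funext x
      rcases Nat.lt_trichotomy (C.rank x) lam with hlt | heq | hgt
      · have e1 : ¬ (lam + 1 ≤ C.rank x) := by omega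
        have e2 : ¬ (lam ≤ C.rank x) := by omega
        have e3 : ¬ (μ ≤ C.frank out x) := by unfold frank; split_ifs <;> omega
        simp [e1, e2, e3]
      · have e1 : ¬ (lam + 1 ≤ C.rank x) := by omega
        have e2 : lam ≤ C.rank x := by omega
        simp only [e1, e2, decide_false, decide_true, Bool.false_or, Bool.true_and]
        rw [Wire.pseudo_eq (h4 x heq) out]
        unfold frank
        by_cases ho : out.eval x (C.vals x) = true
        · rw [if_pos ho, ho, decide_eq_true_eq]; omega
        · rw [if_neg ho]
          rw [Bool.not_eq_true] at ho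
          rw [ho, decide_eq_false_iff_not]; omega
      · have e1 : lam + 1 ≤ C.rank x := by omega
        have e3 : μ ≤ C.frank out x := by unfold frank; split_ifs <;> omega
        simp only [e1, e3, decide_true, Bool.true_or]
    rw [this]
    exact List.mem_cons_self

theorem MProg.monotone {L : List ((ι → Bool) → Bool)} (hL : MProg (VB ι) L) :
    ∀ f, Av (VB ι) L f → ∀ x y : ι → Bool, (∀ i, x i = true → y i = true) → f x = true →
      f y = true := by
  have base : ∀ f ∈ VB ι, ∀ x y : ι → Bool, (∀ i, x i = true → y i = true) → f x = true →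
      f y = true := by
    intro f hf x y hxy hx
    rcases hf with ⟨b, rfl⟩ | ⟨i, rfl⟩
    · exact hx
    · exact hxy i hx
  induction hL with
  | nil =>
    intro f hf
    rcases hf with hf | hf
    · exact base f hf
    · simp at hf
  | @and L f g _ hf hg ih =>
    intro h hh x y hxy hx
    rcases hh with hh | hh
    · exact base h hh x y hxy hx
    · rcases List.mem_cons.mp hh with rfl | hh
      · simp only [Bool.and_eq_true] at hx ⊢
        exact ⟨ih f hf x y hxy hx.1, ih g hg x y hxy hx.2⟩
      · exact ih h (Or.inr hh) x y hxy hx
  | @or L f g _ hf hg ih =>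
    intro h hh x y hxy hx
    rcases hh with hh | hh
    · exact base h hh x y hxy hx
    · rcases List.mem_cons.mp hh with rfl | hh
      · simp only [Bool.or_eq_true] at hx ⊢
        rcases hx with hx | hx
        · exact Or.inl (ih f hf x y hxy hx)
        · exact Or.inr (ih g hg x y hxy hx)
      · exact ih h (Or.inr hh) x y hxy hx

theorem Circuit.frank_mono {n : ℕ} (C : Circuit ι n) (out : Wire ι n) (x y : ι → Bool)
    (hxy : ∀ i, x i = true → y i = true) : C.frank out x ≤ C.frank out y := by
  obtain ⟨L, hL, _, hf⟩ := C.frank_comp out (C.frank out x)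
  have := hL.monotone _ hf x y hxy (by simp)
  simpa using this

theorem Circuit.frank_strict {n : ℕ} (C : Circuit ι n) (out : Wire ι n) (x y : ι → Bool)
    (hxy : ∀ i, x i = true → y i = true) (hne : out.eval x (C.vals x) = false)
    (hne' : out.eval y (C.vals y) = true) : C.frank out x + 1 ≤ C.frank out y := by
  have h1 := C.frank_mono out x y hxy
  rcases Nat.lt_or_ge (C.frank out x) (C.frank out y) with h | h
  · exact h
  · exfalso
    have heq : C.frank out x = C.frank out y := le_antisymm h1 h
    unfold frank at heq
    rw [hne, hne'] at heq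
    simp at heq
    omega

end proof

end Pool.Agent.H520R2
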