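import Pool.Agent.H520R2.NMChain
import Pool.Agent.H611R2.BlockClique

/-!
# The block clique language needs non-monotone gates that change often
-/

namespace Pool.Agent.H520R2.NM

open Pool.Agent.H520R2 Pool.Agent.H611R2 Pool.Agent.NPC

/-- position of an entry -/
def pos (v j a b : ℕ) : ℕ := j * (v * v) + a * v + b

theorem dm {v x y b b' : ℕ} (hb : b < v) (hb' : b' < v) (h : x * v + b = y * v + b') :
    x = y ∧ b = b' := by
  have h1 : (x * v + b) / v = x := by
    rw [mul_comm, Nat.mul_add_div (by omega), Nat.div_eq_of_lt hb, add_zero]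
  have h2 : (y * v + b') / v = y := by
    rw [mul_comm, Nat.mul_add_div (by omega), Nat.div_eq_of_lt hb', add_zero]
  have h3 : x = y := by rw [← h1, h, h2]
  subst h3
  exact ⟨rfl, by omega⟩

theorem pos_inj {v j a b j' a' b' : ℕ} (ha : a < v) (hb : b < v) (ha' : a' < v) (hb' : b' < v)
    (h : pos v j a b = pos v j' a' b') : j = j' ∧ a = a' ∧ b = b' := by
  unfold pos at h
  have e1 : j * (v * v) + a * v + b = (j * v + a) * v + b := by ring
  have e2 : j' * (v * v) + a' * v + b' = (j' * v + a') * v + b' := by ring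
  rw [e1, e2] at h
  obtain ⟨h1, h2⟩ := dm hb hb' h
  obtain ⟨h3, h4⟩ := dm ha ha' h1
  exact ⟨h3, h4, h2⟩

open Classical in
/-- Assemble graphs into a bit string. -/
noncomputable def asmB (N v : ℕ) {m : ℕ} (y : Fin m → SimpleGraph (Fin v)) : Fin N → Bool :=
  fun p => decide (∃ (j : Fin m) (a b : Fin v), a < b ∧ (y j).Adj a b ∧ pos v j a b = p)

theorem asmB_mono (N v : ℕ) {m : ℕ} (y y' : Fin m → SimpleGraph (Fin v)) (h : y ≤ y') :
    asmB N v y ≤ asmB N v y' := by
  intro p
  by_cases hp : asmB N v y p = true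
  · have : asmB N v y' p = true := by
      simp only [asmB, decide_eq_true_eq] at hp ⊢
      obtain ⟨j, a, b, hab, hadj, hpos⟩ := hp
      exact ⟨j, a, b, hab, h j hadj, hpos⟩
    rw [hp, this]
  · rw [Bool.not_eq_true] at hp
    rw [hp]
    exact Bool.false_le _

theorem asmB_base (N v : ℕ) {m : ℕ} (y : Fin m → SimpleGraph (Fin v)) (J : Fin m)
    (f : (Fin N → Bool) → Bool) (hf : f ∈ VB (Fin N)) :
    f ∘ (fun G => asmB N v (Function.update y J G)) ∈ GB (Fin v) := by
  classical
  rcases hf with ⟨b, rfl⟩ | ⟨p, rfl⟩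
  · exact Or.inl ⟨b, rfl⟩
  · by_cases hp : ∃ a b : Fin v, a < b ∧ pos v J a b = p
    · obtain ⟨a, b, hab, hpos⟩ := hp
      right
      refine ⟨a, b, ?_⟩
      funext G
      simp only [Function.comp, asmB, adjFn]
      congr 1
      apply propext
      constructor
      · rintro ⟨j, a', b', _, hadj, hpos'⟩
        obtain ⟨h1, h2, h3⟩ := pos_inj a'.2 b'.2 a.2 b.2 (hpos'.trans hpos.symm)
        have h1' : j = J := Fin.ext h1
        have h2' : a' = a := Fin.ext h2
        have h3' : b' = b := Fin.ext h3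
        subst h1' h2' h3'
        rw [Function.update_self] at hadj
        exact hadj
      · intro hG
        exact ⟨J, a, b, hab, by rw [Function.update_self]; exact hG, hpos⟩
    · left
      refine ⟨decide (∃ (j : Fin m) (a b : Fin v), j ≠ J ∧ a < b ∧ (y j).Adj a b ∧
        pos v j a b = p), ?_⟩
      funext G
      simp only [Function.comp, asmB]
      congr 1
      apply propext
      constructor
      · rintro ⟨j, a, b, hab, hadj, hpos⟩
        by_cases hj : j = J
        · subst hj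
          exact absurd ⟨a, b, hab, hpos⟩ hp
        · rw [Function.update_of_ne hj] at hadj
          exact ⟨j, a, b, hj, hab, hadj, hpos⟩
      · rintro ⟨j, a, b, hj, hab, hadj, hpos⟩
        refine ⟨j, a, b, hab, ?_, hpos⟩
        rw [Function.update_of_ne hj]
        exact hadj

theorem pos_lt {N v j a b : ℕ} (hj : j < N / (v * v)) (ha : a < v) (hb : b < v) :
    pos v j a b < N := by
  have h1 : (j + 1) * (v * v) ≤ N := by
    calc (j + 1) * (v * v) ≤ N / (v * v) * (v * v) := Nat.mul_le_mul_right _ hj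
      _ ≤ N := Nat.div_mul_le_self _ _
  have h2 : a * v + b < v * v := by
    calc a * v + b < a * v + v := by omega
      _ = (a + 1) * v := by ring
      _ ≤ v * v := Nat.mul_le_mul_right _ ha
  unfold pos
  have h3 : (j + 1) * (v * v) = j * (v * v) + v * v := by ring
  omega

theorem asmB_mem (N : ℕ) (v k : ℕ → ℕ)
    (y : Fin (N / (v N * v N)) → SimpleGraph (Fin (v N))) :
    List.ofFn (asmB N (v N) y) ∈ BlockClique v k ↔ ∃ i, ¬ (y i).CliqueFree (k N) := by
  classical
  have hentry : ∀ (j : Fin (N / (v N * v N))) (a b : Fin (v N)),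
      a < b → (entry (v N) (List.ofFn (asmB N (v N) y)) j a b = true ↔ (y j).Adj a b) := by
    intro j a b hab
    unfold entry
    have hlt : (j : ℕ) * (v N * v N) + a * v N + b < N := pos_lt j.2 a.2 b.2
    rw [List.getD_eq_getElem _ _ (by simpa using hlt), List.getElem_ofFn]
    simp only [asmB, decide_eq_true_eq]
    constructor
    · rintro ⟨j', a', b', _, hadj, hpos'⟩
      obtain ⟨h1, h2, h3⟩ := pos_inj a'.2 b'.2 a.2 b.2 hpos'
      have h1' : j' = j := Fin.ext h1
      have h2' : a' = a := Fin.ext h2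
      have h3' : b' = b := Fin.ext h3
      subst h1' h2' h3'
      exact hadj
    · intro h
      exact ⟨j, a, b, hab, h, rfl⟩
  unfold BlockClique
  change (∃ j < (List.ofFn (asmB N (v N) y)).length / _, _) ↔ _
  rw [List.length_ofFn]
  constructor
  · rintro ⟨j, hj, S, hS, hSv, hcl⟩
    refine ⟨⟨j, hj⟩, ?_⟩
    intro hfree
    apply hfree (Finset.univ.filter (fun a : Fin (v N) => (a : ℕ) ∈ S))
    rw [SimpleGraph.isNClique_iff]
    constructor
    · intro a ha b hb hab
      rw [Finset.mem_coe, Finset.mem_filter] at ha hb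
      rcases lt_or_gt_of_ne hab with h | h
      · exact (hentry ⟨j, hj⟩ a b h).mp (hcl a ha.2 b hb.2 h)
      · exact ((hentry ⟨j, hj⟩ b a h).mp (hcl b hb.2 a ha.2 h)).symm
    · rw [← hS]
      apply Finset.card_bij (fun (a : Fin (v N)) _ => (a : ℕ))
      · intro a ha
        exact (Finset.mem_filter.mp ha).2
      · intro a _ b _ h
        exact Fin.ext h
      · intro a ha
        exact ⟨⟨a, hSv a ha⟩, Finset.mem_filter.mpr ⟨Finset.mem_univ _, ha⟩, rfl⟩
  · rintro ⟨j, hj⟩
    rw [SimpleGraph.CliqueFree] at hj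
    push Not at hj
    obtain ⟨S, hS⟩ := hj
    rw [SimpleGraph.isNClique_iff] at hS
    refine ⟨j, j.2, S.map Fin.valEmbedding, ?_, ?_, ?_⟩
    · rw [Finset.card_map]; exact hS.2
    · intro a ha
      rw [Finset.mem_map] at ha
      obtain ⟨a', _, rfl⟩ := ha
      exact a'.2
    · intro a ha b hb hab
      rw [Finset.mem_map] at ha hb
      obtain ⟨a', ha', rfl⟩ := ha
      obtain ⟨b', hb', rfl⟩ := hb
      have hab' : a' < b' := hab
      exact (hentry j a' b' hab').mpr (hS.1 ha' hb' (ne_of_lt hab'))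

/-- the number of vertices of a block -/
def vv (N : ℕ) : ℕ := 200 * Nat.size N ^ 12

/-- the clique size -/
def kk (N : ℕ) : ℕ := Nat.size N ^ 3

theorem upoly_pow {α : Type} [TEnc α] {f : α → ℕ} (h : UPoly f) (c : ℕ) :
    UPoly (fun a => f a ^ c) := by
  induction c with
  | zero =>
    simp only [pow_zero]
    exact UPoly.const 1
  | succ c ih =>
    simp only [pow_succ]
    exact UPoly.mul ih h

theorem upoly_vv : UPoly (fun x : List Bool => vv x.length) :=
  UPoly.mul (UPoly.const 200) (upoly_pow upoly_size 12)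

theorem poly_kk : NPC.Poly (fun x : List Bool => kk x.length) :=
  (upoly_pow upoly_size 3).toPoly

theorem inNP_L : InNP (BlockClique vv kk) := inNP_blockClique upoly_vv poly_kk

theorem size_bound (c N : ℕ) (hN : 2 ^ ((c + 2) ^ 2) ≤ N) :
    N ^ c < 2 ^ Nat.sqrt (kk N) ∧ 4 ≤ kk N ∧ 200 * kk N ^ 4 ≤ vv N := by
  have hs : (c + 2) ^ 2 < Nat.size N := Nat.lt_size.mpr hN
  have h1 : N < 2 ^ Nat.size N := Nat.lt_size_self N
  refine ⟨?_, ?_, ?_⟩
  · have h2 : (c + 1) * Nat.size N ≤ Nat.sqrt (kk N) := by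
      rw [Nat.le_sqrt]
      unfold kk
      have h3 : (c + 1) ^ 2 ≤ Nat.size N := by
        have : (c + 1) ^ 2 ≤ (c + 2) ^ 2 := Nat.pow_le_pow_left (by omega) 2
        omega
      calc (c + 1) * Nat.size N * ((c + 1) * Nat.size N) = (c + 1) ^ 2 * Nat.size N ^ 2 := by ring
        _ ≤ Nat.size N * Nat.size N ^ 2 := Nat.mul_le_mul_right _ h3
        _ = Nat.size N ^ 3 := by ring
    have hNpos : 1 ≤ N := le_trans Nat.one_le_two_pow hN
    calc N ^ c ≤ N ^ (c + 1) := Nat.pow_le_pow_right hNpos (by omega)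
      _ < (2 ^ Nat.size N) ^ (c + 1) := Nat.pow_lt_pow_left h1 (by omega)
      _ = 2 ^ ((c + 1) * Nat.size N) := by rw [← pow_mul, mul_comm]
      _ ≤ 2 ^ Nat.sqrt (kk N) := Nat.pow_le_pow_right (by norm_num) h2
  · unfold kk
    have h3 : 4 < Nat.size N := by
      have : 2 ^ 2 ≤ (c + 2) ^ 2 := Nat.pow_le_pow_left (by omega) 2
      omega
    calc 4 ≤ 4 ^ 3 := by norm_num
      _ ≤ Nat.size N ^ 3 := Nat.pow_le_pow_left h3.le 3
  · unfold kk vv
    rw [← pow_mul]

end Pool.Agent.H520R2.NM
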