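import Pool.Agent.H520R2.ClassLevel
import Pool.Agent.H611R2.ListClique

/-!
# The NP-complete list clique language needs non-monotone gates that change often
-/

namespace Pool.Agent.H520R2.NM

open Pool.Agent.H520R2 Pool.Agent.NPC

theorem asmB_hasClique (N v k : ℕ) (y : Fin (N / (v * v)) → SimpleGraph (Fin v)) :
    Pool.Agent.H611R2.LC.HasClique v k (List.ofFn (asmB N v y)) ↔ ∃ i, ¬ (y i).CliqueFree k := by
  classical
  have hentry : ∀ (j : Fin (N / (v * v))) (a b : Fin v),
      a < b → (Pool.Agent.H611R2.LC.entry v (List.ofFn (asmB N v y)) j a b = true ↔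
        (y j).Adj a b) := by
    intro j a b hab
    unfold Pool.Agent.H611R2.LC.entry
    have hlt : (j : ℕ) * (v * v) + a * v + b < N := pos_lt j.2 a.2 b.2
    rw [List.getD_eq_getElem _ _ (by simpa using hlt), List.getElem_ofFn]
    simp only [asmB, decide_eq_true_eq]
    constructor
    · rintro ⟨j', a', b', _, hadj, hpos'⟩
      obtain ⟨h1, h2, h3⟩ := pos_inj a'.2 b'.2 a.2 b.2 hpos'
      have h1' : j' = j := Fin.ext h1
      have h2' : a' = a := Fin.ext h2
      have h3' : b' = b := Fin.ext h3
      subst h1' h2' h3'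
      exact hadj
    · intro h
      exact ⟨j, a, b, hab, h, rfl⟩
  unfold Pool.Agent.H611R2.LC.HasClique
  rw [List.length_ofFn]
  constructor
  · rintro ⟨j, hj, S, hS, hSv, hcl⟩
    refine ⟨⟨j, hj⟩, ?_⟩
    intro hfree
    apply hfree (Finset.univ.filter (fun a : Fin v => (a : ℕ) ∈ S))
    rw [SimpleGraph.isNClique_iff]
    constructor
    · intro a ha b hb hab
      rw [Finset.mem_coe, Finset.mem_filter] at ha hb
      rcases lt_or_gt_of_ne hab with h | h
      · exact (hentry ⟨j, hj⟩ a b h).mp (hcl a ha.2 b hb.2 h)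
      · exact ((hentry ⟨j, hj⟩ b a h).mp (hcl b hb.2 a ha.2 h)).symm
    · rw [← hS]
      apply Finset.card_bij (fun (a : Fin v) _ => (a : ℕ))
      · intro a ha
        exact (Finset.mem_filter.mp ha).2
      · intro a _ b _ h
        exact Fin.ext h
      · intro a ha
        exact ⟨⟨a, hSv a ha⟩, Finset.mem_filter.mpr ⟨Finset.mem_univ _, ha⟩, rfl⟩
  · rintro ⟨j, hj⟩
    rw [SimpleGraph.CliqueFree] at hj
    push Not at hj
    obtain ⟨S, hS⟩ := hj
    rw [SimpleGraph.isNClique_iff] at hS
    refine ⟨j, j.2, S.map Fin.valEmbedding, ?_, ?_, ?_⟩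
    · rw [Finset.card_map]; exact hS.2
    · intro a ha
      rw [Finset.mem_map] at ha
      obtain ⟨a', _, rfl⟩ := ha
      exact a'.2
    · intro a ha b hb hab
      rw [Finset.mem_map] at ha hb
      obtain ⟨a', ha', rfl⟩ := ha
      obtain ⟨b', hb', rfl⟩ := hb
      have hab' : a' < b' := hab
      exact (hentry j a' b' hab').mpr (hS.1 ha' hb' (ne_of_lt hab'))

/-- prefix an input with a header coding `v` and `k` in unary -/
def withHdr (N v k : ℕ) (z : Fin (N - (v + k + 2)) → Bool) : Fin N → Bool := fun p =>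
  if h : v + k + 2 ≤ (p : ℕ) then z ⟨p - (v + k + 2), by omega⟩
  else decide ((p : ℕ) ≠ v ∧ (p : ℕ) ≠ v + 1 + k)

theorem withHdr_list (N v k : ℕ) (hN : v + k + 2 ≤ N) (z : Fin (N - (v + k + 2)) → Bool) :
    List.ofFn (withHdr N v k z) =
      List.replicate v true ++ false :: (List.replicate k true ++ false :: List.ofFn z) := by
  apply List.ext_getElem
  · simp only [List.length_ofFn, List.length_append, List.length_replicate, List.length_cons]
    omega
  · intro p hp1 hp2
    rw [List.getElem_ofFn]
    simp only [withHdr]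
    by_cases h1 : v + k + 2 ≤ p
    · rw [dif_pos h1]
      rw [List.getElem_append_right (by simp; omega)]
      simp only [List.length_replicate]
      rw [List.getElem_cons, dif_neg (by omega)]
      rw [List.getElem_append_right (by simp; omega)]
      simp only [List.length_replicate]
      rw [List.getElem_cons, dif_neg (by omega)]
      rw [List.getElem_ofFn]
      congr 1
      apply Fin.ext
      simp only
      omega
    · rw [dif_neg h1]
      by_cases h2 : p < v
      · rw [List.getElem_append_left (by simpa using h2)]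
        simp only [List.getElem_replicate, decide_eq_true_eq]
        omega
      · rw [List.getElem_append_right (by simp; omega)]
        simp only [List.length_replicate]
        by_cases h3 : p = v
        · subst h3
          simp
        · rw [List.getElem_cons, dif_neg (by omega)]
          by_cases h4 : p < v + 1 + k
          · rw [List.getElem_append_left (by simp; omega)]
            simp only [List.getElem_replicate, decide_eq_true_eq]
            omega
          · rw [List.getElem_append_right (by simp; omega)]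
            have h5 : p = v + 1 + k := by omega
            subst h5
            simp only [List.length_replicate]
            have h6 : v + 1 + k - v - 1 - k = 0 := by omega
            simp [h6]

theorem withHdr_mono (N v k : ℕ) (z z' : Fin (N - (v + k + 2)) → Bool) (h : z ≤ z') :
    withHdr N v k z ≤ withHdr N v k z' := by
  intro p
  simp only [withHdr]
  split_ifs
  · exact h _
  · exact le_rfl

theorem withHdr_base (N v k : ℕ) (f : (Fin N → Bool) → Bool) (hf : f ∈ VB (Fin N)) :
    f ∘ withHdr N v k ∈ VB (Fin (N - (v + k + 2))) := by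
  rcases hf with ⟨b, rfl⟩ | ⟨p, rfl⟩
  · exact Or.inl ⟨b, rfl⟩
  · by_cases h : v + k + 2 ≤ (p : ℕ)
    · right
      refine ⟨⟨p - (v + k + 2), by omega⟩, ?_⟩
      funext z
      simp only [Function.comp, withHdr]
      rw [dif_pos h]
    · left
      refine ⟨decide ((p : ℕ) ≠ v ∧ (p : ℕ) ≠ v + 1 + k), ?_⟩
      funext z
      simp only [Function.comp, withHdr]
      rw [dif_neg h]

theorem growth (s : ℕ) (hs : 100 ≤ s) : 1200 * s ^ 12 ≤ 2 ^ (s - 1) := by
  induction s, hs using Nat.le_induction with
  | base => norm_num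
  | succ s hs ih =>
    have h1 : 100 * (s + 1) ≤ 101 * s := by omega
    have h2 : (100 * (s + 1)) ^ 12 ≤ (101 * s) ^ 12 := Nat.pow_le_pow_left h1 12
    have h3 : 100 ^ 12 * (s + 1) ^ 12 ≤ 100 ^ 12 * (2 * s ^ 12) := by
      calc 100 ^ 12 * (s + 1) ^ 12 = (100 * (s + 1)) ^ 12 := by rw [mul_pow]
        _ ≤ (101 * s) ^ 12 := h2
        _ = 101 ^ 12 * s ^ 12 := by rw [mul_pow]
        _ ≤ (100 ^ 12 * 2) * s ^ 12 := Nat.mul_le_mul_right _ (by norm_num)
        _ = 100 ^ 12 * (2 * s ^ 12) := by ring
    have h4 : (s + 1) ^ 12 ≤ 2 * s ^ 12 := Nat.le_of_mul_le_mul_left h3 (by norm_num)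
    calc 1200 * (s + 1) ^ 12 ≤ 1200 * (2 * s ^ 12) := Nat.mul_le_mul_left _ h4
      _ = 2 * (1200 * s ^ 12) := by ring
      _ ≤ 2 * 2 ^ (s - 1) := Nat.mul_le_mul_left _ ih
      _ = 2 ^ (s + 1 - 1) := by
        obtain ⟨r, rfl⟩ : ∃ r, s = r + 1 := ⟨s - 1, by omega⟩
        simp only [Nat.add_sub_cancel]
        rw [pow_succ]; ring

theorem hdr_bound (N : ℕ) (hN : 2 ^ 100 ≤ N) :
    vv N + kk N + 2 ≤ N ∧
      N / (80000 * Nat.size N ^ 24) ≤ (N - (vv N + kk N + 2)) / (vv N * vv N) := by
  have hs : 100 < Nat.size N := Nat.lt_size.mpr hN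
  have h1 := growth (Nat.size N) hs.le
  have h2 : 2 ^ (Nat.size N - 1) ≤ N := by
    apply Nat.lt_size.mp
    omega
  have hs1 : 1 ≤ Nat.size N := by omega
  have h3 : kk N ≤ vv N := by
    unfold kk vv
    calc Nat.size N ^ 3 ≤ Nat.size N ^ 12 := Nat.pow_le_pow_right hs1 (by norm_num)
      _ ≤ 200 * Nat.size N ^ 12 := by omega
  have h4 : 2 ≤ vv N := by
    unfold vv
    have : 1 ≤ Nat.size N ^ 12 := Nat.one_le_pow _ _ hs1
    omega
  have h5 : 6 * vv N ≤ N := by
    unfold vv
    omega
  refine ⟨by omega, ?_⟩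
  have h6 : 80000 * Nat.size N ^ 24 = 2 * (vv N * vv N) := by
    unfold vv; ring
  rw [h6, ← Nat.div_div_eq_div_mul]
  apply Nat.div_le_div_right
  omega

end Pool.Agent.H520R2.NM
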