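import Pool.Agent.H520R2.NM

/-! Circuits given by gate functions, translated into the inductive circuits of `H520R2.NM`.
(File by helper560, Pool/Agent/H560R2/Neg6.lean, copied here to keep the imports small.) -/

namespace Pool.Agent.H520R2.Fun

open Finset Pool.Agent.H520R2 Pool.Agent.H520R2.NM

lemma mono_two (w : ℕ) (hw : w ≤ 2) (op : (Fin w → Bool) → Bool) (hm : Monotone op) :
    ∃ (b : Bool) (p q : Bool ⊕ Fin w), ∀ z, op z =
      (if b = true then (Sum.elim id z p && Sum.elim id z q)
        else (Sum.elim id z p || Sum.elim id z q)) := by
  have hw' : w = 0 ∨ w = 1 ∨ w = 2 := by omega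
  rcases hw' with rfl | rfl | rfl
  · refine ⟨true, Sum.inl (op (fun i => i.elim0)), Sum.inl (op (fun i => i.elim0)), fun z => ?_⟩
    have : z = (fun i => i.elim0) := funext (fun i => i.elim0)
    simp [this]
  · have hz : ∀ z : Fin 1 → Bool, z = fun _ => z 0 := fun z => funext (fun i => by
      rw [Subsingleton.elim i 0])
    rcases h0 : op (fun _ => false) with _ | _
    · rcases h1 : op (fun _ => true) with _ | _
      · refine ⟨true, Sum.inl false, Sum.inl false, fun z => ?_⟩
        rw [hz z]
        rcases z 0 with _ | _
        · simp [h0]
        · simp [h1]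
      · refine ⟨true, Sum.inr 0, Sum.inr 0, fun z => ?_⟩
        rw [hz z]
        rcases z 0 with _ | _
        · simp [h0]
        · simp [h1]
    · refine ⟨true, Sum.inl true, Sum.inl true, fun z => ?_⟩
      have h1 : op (fun _ => true) = true := by
        have := hm (show (fun _ : Fin 1 => false) ≤ fun _ => true from fun _ => by simp)
        rw [h0] at this
        exact top_le_iff.mp this
      rw [hz z]
      rcases z 0 with _ | _
      · simp [h0]
      · simp [h1]
  · have hz : ∀ z : Fin 2 → Bool, z = ![z 0, z 1] := fun z => funext (fun i => by
      fin_cases i <;> rfl)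
    have hle : ∀ a b a' b' : Bool, a ≤ a' → b ≤ b' → op ![a, b] ≤ op ![a', b'] := by
      intro a b a' b' h1 h2
      apply hm
      intro i
      fin_cases i
      · exact h1
      · exact h2
    have m1 := hle false false false true le_rfl (by simp)
    have m2 := hle false false true false (by simp) le_rfl
    have m3 := hle false true true true (by simp) le_rfl
    have m4 := hle true false true true le_rfl (by simp)
    rcases h00 : op ![false, false] with _ | _
    · rcases h11 : op ![true, true] with _ | _
      · rw [h11] at m3 m4
        have h01 : op ![false, true] = false := le_bot_iff.mp m3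
        have h10 : op ![true, false] = false := le_bot_iff.mp m4
        refine ⟨true, Sum.inl false, Sum.inl false, fun z => ?_⟩
        rw [hz z]
        rcases z 0 with _ | _ <;> rcases z 1 with _ | _ <;> simp [h00, h01, h10, h11]
      · rcases h01 : op ![false, true] with _ | _ <;> rcases h10 : op ![true, false] with _ | _
        · refine ⟨true, Sum.inr 0, Sum.inr 1, fun z => ?_⟩
          rw [hz z]
          rcases z 0 with _ | _ <;> rcases z 1 with _ | _ <;> simp [h00, h01, h10, h11]
        · refine ⟨true, Sum.inr 0, Sum.inr 0, fun z => ?_⟩
          rw [hz z]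
          rcases z 0 with _ | _ <;> rcases z 1 with _ | _ <;> simp [h00, h01, h10, h11]
        · refine ⟨true, Sum.inr 1, Sum.inr 1, fun z => ?_⟩
          rw [hz z]
          rcases z 0 with _ | _ <;> rcases z 1 with _ | _ <;> simp [h00, h01, h10, h11]
        · refine ⟨false, Sum.inr 0, Sum.inr 1, fun z => ?_⟩
          rw [hz z]
          rcases z 0 with _ | _ <;> rcases z 1 with _ | _ <;> simp [h00, h01, h10, h11]
    · rw [h00] at m1 m2
      have h01 : op ![false, true] = true := top_le_iff.mp m1
      have h10 : op ![true, false] = true := top_le_iff.mp m2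
      rw [h01] at m3
      have h11 : op ![true, true] = true := top_le_iff.mp m3
      refine ⟨true, Sum.inl true, Sum.inl true, fun z => ?_⟩
      rw [hz z]
      rcases z 0 with _ | _ <;> rcases z 1 with _ | _ <;> simp [h00, h01, h10, h11]

/-- wires of the functional model as wires of the inductive model -/
def convW {L : Type} {s : ℕ} (k : ℕ) : L ⊕ Fin s → Wire L k
  | Sum.inl l => Wire.input l
  | Sum.inr m => if h : m.val < k then Wire.gate ⟨m.val, h⟩ else Wire.const false

theorem to_circuit {L X : Type} {s : ℕ} (T : Finset (Fin s)) (w : Fin s → ℕ)
    (a : ∀ i, Fin (w i) → L ⊕ Fin s) (op : ∀ i, (Fin (w i) → Bool) → Bool)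
    (htop : ∀ i j k, a i j = Sum.inr k → k < i)
    (hmon : ∀ i ∉ T, w i ≤ 2 ∧ Monotone (op i))
    (lf : L → X → Bool) (val : X → Fin s → Bool)
    (hval : ∀ x i, val x i = op i (fun j => Sum.elim (fun l => lf l x) (val x) (a i j))) :
    ∀ k (hk : k ≤ s), ∃ C : Circuit L k,
      (∀ x (j : Fin k), C.vals (fun l => lf l x) j = val x (Fin.castLE hk j)) ∧
      C.size ≤ k ∧
      C.fanins.sum = ∑ i ∈ T.filter (fun i => i.val < k), w i ∧
      (C.fanins.map (· + 1)).prod = ∏ i ∈ T.filter (fun i => i.val < k), (w i + 1) ∧
      (∀ x x', C.probes (fun l => lf l x) ≠ C.probes (fun l => lf l x') →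
        ∃ t ∈ T, ∃ j, Sum.elim (fun l => lf l x) (val x) (a t j) ≠
          Sum.elim (fun l => lf l x') (val x') (a t j)) := by
  classical
  intro k
  induction k with
  | zero =>
    intro hk
    refine ⟨Circuit.empty, fun x j => j.elim0, by simp [Circuit.size], ?_, ?_, ?_⟩
    · simp [Circuit.fanins]
    · simp [Circuit.fanins]
    · intro x x' h
      simp [Circuit.probes] at h
  | succ k ih =>
    intro hk
    obtain ⟨C, h1, h2, h3, h4, h5⟩ := ih (by omega)
    let i : Fin s := ⟨k, hk⟩
    have hwire : ∀ x j, (convW k (a i j)).eval (fun l => lf l x) (C.vals (fun l => lf l x)) =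
        Sum.elim (fun l => lf l x) (val x) (a i j) := by
      intro x j
      rcases hm : a i j with l | m
      · rfl
      · have hlt : m.val < k := htop i j m hm
        simp only [convW, dif_pos hlt, Wire.eval, Sum.elim_inr]
        rw [h1]
        rfl
    have hvi : ∀ x, val x (Fin.castLE hk (Fin.last k)) = op i (fun j =>
        Sum.elim (fun l => lf l x) (val x) (a i j)) := fun x => hval x i
    have hvj : ∀ x (j : Fin k), val x (Fin.castLE hk (Fin.castSucc j)) =
        C.vals (fun l => lf l x) j := fun x j => by rw [h1]; rfl
    by_cases hiT : i ∈ T
    · have hf : T.filter (fun i => i.val < k + 1) = insert i (T.filter (fun i => i.val < k)) := by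
        ext t
        simp only [Finset.mem_filter, Finset.mem_insert]
        constructor
        · rintro ⟨ht, hlt⟩
          by_cases h : t.val = k
          · left; exact Fin.ext h
          · right; exact ⟨ht, by omega⟩
        · rintro (rfl | ⟨ht, hlt⟩)
          · exact ⟨hiT, by simp [i]⟩
          · exact ⟨ht, by omega⟩
      have hni : i ∉ T.filter (fun i => i.val < k) := by
        simp [i]
      refine ⟨Circuit.any C (w i) 1 (fun z _ => op i z) (fun j => convW k (a i j)),
        ?_, ?_, ?_, ?_, ?_⟩
      · intro x j
        have hgoal : (Circuit.any C (w i) 1 (fun z _ => op i z) (fun j => convW k (a i j))).vals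
            (fun l => lf l x) = Fin.append (C.vals (fun l => lf l x))
            (fun _ => op i (fun j => Sum.elim (fun l => lf l x) (val x) (a i j))) := by
          simp only [Circuit.vals]
          congr 1
          funext _
          congr 1
          funext j
          exact hwire x j
        rw [hgoal]
        refine Fin.lastCases ?_ (fun j => ?_) j
        · have : Fin.last k = Fin.natAdd k (0 : Fin 1) := rfl
          rw [hvi, this, Fin.append_right]
        · have : Fin.castSucc j = Fin.castAdd 1 j := rfl
          rw [hvj, this, Fin.append_left]
      · simp only [Circuit.size]; omega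
      · simp only [Circuit.fanins, List.sum_cons]
        rw [hf, Finset.sum_insert hni, h3]
      · simp only [Circuit.fanins, List.map_cons, List.prod_cons]
        rw [hf, Finset.prod_insert hni, h4]
      · intro x x' h
        simp only [Circuit.probes] at h
        by_cases hp : C.probes (fun l => lf l x) = C.probes (fun l => lf l x')
        · refine ⟨i, hiT, ?_⟩
          by_contra hcon
          push Not at hcon
          apply h
          rw [hp]
          congr 2
          funext j
          rw [hwire, hwire]
          exact hcon j
        · exact h5 x x' hp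
    · have hf : T.filter (fun i => i.val < k + 1) = T.filter (fun i => i.val < k) := by
        ext t
        simp only [Finset.mem_filter]
        constructor
        · rintro ⟨ht, hlt⟩
          refine ⟨ht, ?_⟩
          have : t.val ≠ k := by
            intro h
            apply hiT
            have : t = i := Fin.ext h
            rw [← this]; exact ht
          omega
        · rintro ⟨ht, hlt⟩
          exact ⟨ht, by omega⟩
      obtain ⟨b, p, q, hpq⟩ := mono_two (w i) (hmon i hiT).1 (op i) (hmon i hiT).2
      let cv : Bool ⊕ Fin (w i) → Wire L k := fun p => match p with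
        | Sum.inl c => Wire.const c
        | Sum.inr j => convW k (a i j)
      have hcv : ∀ x p, (cv p).eval (fun l => lf l x) (C.vals (fun l => lf l x)) =
          Sum.elim id (fun j => Sum.elim (fun l => lf l x) (val x) (a i j)) p := by
        rintro x (c | j)
        · rfl
        · exact hwire x j
      rcases b with _ | _
      · refine ⟨Circuit.or C (cv p) (cv q), ?_, ?_, ?_, ?_, ?_⟩
        · intro x j
          refine Fin.lastCases ?_ (fun j => ?_) j
          · simp only [Circuit.vals, Fin.snoc_last]
            rw [hvi, hpq, hcv, hcv]
            simp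
          · simp only [Circuit.vals, Fin.snoc_castSucc]
            exact (hvj x j).symm
        · simp only [Circuit.size]; omega
        · rw [hf]; exact h3
        · rw [hf]; exact h4
        · intro x x' h
          exact h5 x x' h
      · refine ⟨Circuit.and C (cv p) (cv q), ?_, ?_, ?_, ?_, ?_⟩
        · intro x j
          refine Fin.lastCases ?_ (fun j => ?_) j
          · simp only [Circuit.vals, Fin.snoc_last]
            rw [hvi, hpq, hcv, hcv]
            simp
          · simp only [Circuit.vals, Fin.snoc_castSucc]
            exact (hvj x j).symm
        · simp only [Circuit.size]; omega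
        · rw [hf]; exact h3
        · rw [hf]; exact h4
        · intro x x' h
          exact h5 x x' h

end Pool.Agent.H520R2.Fun
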