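import Mathlib

/-!
# The half-clique language
-/

namespace Pool.Agent.H520R2.HC

/-- **The half-clique language.** A bit string `x` is read as a graph on the vertices
`0, ..., n - 1`, where `n` is the integer part of the square root of the length of `x`: for
`a < b` the pair `a, b` is an edge if the bit number `a * n + b` of `x` is one. The string belongs to
the language if this graph has a clique that contains at least half of the `n` vertices. -/
def HalfClique : Set (List Bool) :=
  {x | ∃ S : Finset ℕ, Nat.sqrt x.length ≤ 2 * S.card ∧ (∀ a ∈ S, a < Nat.sqrt x.length) ∧
    ∀ a ∈ S, ∀ b ∈ S, a < b → x.getD (a * Nat.sqrt x.length + b) false = true}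

end Pool.Agent.H520R2.HC
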