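import Pool.Agent.H611R2.ListClique
import Pool.Agent.H520R2.HCDef

/-!
# The half-clique language is monotone and NP-complete
-/

namespace Pool.Agent.H520R2.HC

open Pool.Agent.NPC Pool.Agent.H611R2

/-- The verifier. -/
def chkH (n : ℕ) (y w : List Bool) : Bool :=
  decide (n ≤ 2 * ((List.range n).filter (fun a => w.getD a false)).length) &&
    (List.range n).all (fun a => (List.range n).all (fun b =>
      !(decide (a < b) && (w.getD a false && w.getD b false)) || y.getD (a * n + b) false))

theorem chkH_poly {α : Type} [TEnc α] {n : α → ℕ} {y w : α → List Bool} (hn : UPoly n)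
    (hy : NPC.Poly y) (hw : NPC.Poly w) :
    NPC.Poly (fun a => chkH (n a) (y a) (w a)) := by
  have hn' : NPC.Poly n := hn.toPoly
  have hF : NPC.Poly (fun q : α × ℕ => (w q.1).getD q.2 false) :=
    Poly.getD (d := fun _ => false) (hw.comp (Poly.fst Poly.id)) (Poly.snd Poly.id)
      (NPC.Poly.const false)
  have h1 : NPC.Poly (fun a : α =>
      decide (n a ≤ 2 * ((List.range (n a)).filter (fun i => (w a).getD i false)).length)) :=
    Poly.decide_le hn' (Poly.mul (NPC.Poly.const 2)
      (Poly.length (Poly.filter (p := fun a i => (w a).getD i false) hn.range hF)))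
  have A1 : NPC.Poly (fun r : (α × ℕ) × ℕ => r.1.1) := Poly.fst (Poly.fst Poly.id)
  have A3 : NPC.Poly (fun r : (α × ℕ) × ℕ => r.1.2) := Poly.snd (Poly.fst Poly.id)
  have A4 : NPC.Poly (fun r : (α × ℕ) × ℕ => r.2) := Poly.snd Poly.id
  have V3 : NPC.Poly (fun r : (α × ℕ) × ℕ => n r.1.1) := hn'.comp A1
  have h2 : NPC.Poly (fun r : (α × ℕ) × ℕ =>
      !(decide (r.1.2 < r.2) && ((w r.1.1).getD r.1.2 false && (w r.1.1).getD r.2 false)) ||
        (y r.1.1).getD (r.1.2 * n r.1.1 + r.2) false) := by
    refine Poly.or (Poly.not (Poly.and (Poly.decide_lt A3 A4) (Poly.and ?_ ?_))) ?_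
    · exact Poly.getD (d := fun _ => false) (hw.comp A1) A3 (NPC.Poly.const false)
    · exact Poly.getD (d := fun _ => false) (hw.comp A1) A4 (NPC.Poly.const false)
    · exact Poly.getD (d := fun _ => false) (hy.comp A1)
        (Poly.add (Poly.mul A3 V3) A4) (NPC.Poly.const false)
  have h3 : NPC.Poly (fun r : α × ℕ => (List.range (n r.1)).all (fun b =>
      !(decide (r.2 < b) && ((w r.1).getD r.2 false && (w r.1).getD b false)) ||
        (y r.1).getD (r.2 * n r.1 + b) false)) :=
    Poly.all (l := fun r : α × ℕ => List.range (n r.1))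
      (p := fun r b => !(decide (r.2 < b) && ((w r.1).getD r.2 false && (w r.1).getD b false)) ||
        (y r.1).getD (r.2 * n r.1 + b) false)
      (hn.range.comp (Poly.fst Poly.id)) h2
  have h4 : NPC.Poly (fun c : α => (List.range (n c)).all (fun a =>
      (List.range (n c)).all (fun b =>
      !(decide (a < b) && ((w c).getD a false && (w c).getD b false)) ||
        (y c).getD (a * n c + b) false))) :=
    Poly.all (l := fun c : α => List.range (n c))
      (p := fun c a => (List.range (n c)).all (fun b =>
      !(decide (a < b) && ((w c).getD a false && (w c).getD b false)) ||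
        (y c).getD (a * n c + b) false)) hn.range h3
  exact Poly.and h1 h4

/-- The integer square root by counting. -/
theorem sqrt_eq_count (m : ℕ) :
    ((List.range m).filter (fun i => decide ((i + 1) * (i + 1) ≤ m))).length = Nat.sqrt m := by
  have h1 : (List.range m).filter (fun i => decide ((i + 1) * (i + 1) ≤ m)) =
      (List.range m).filter (fun i => decide (i < Nat.sqrt m)) := by
    apply List.filter_congr
    intro i _
    rw [decide_eq_decide, ← Nat.le_sqrt]
    exact Nat.succ_le_iff
  rw [h1]
  have h2 : ((List.range m).filter (fun i => decide (i < Nat.sqrt m))).Nodup :=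
    List.nodup_range.filter _
  rw [← List.toFinset_card_of_nodup h2]
  have h3 : ((List.range m).filter (fun i => decide (i < Nat.sqrt m))).toFinset =
      Finset.range (Nat.sqrt m) := by
    ext i
    simp only [List.mem_toFinset, List.mem_filter, List.mem_range, decide_eq_true_eq,
      Finset.mem_range]
    exact ⟨fun h => h.2, fun h => ⟨lt_of_lt_of_le h (Nat.sqrt_le_self m), h⟩⟩
  rw [h3, Finset.card_range]

theorem sqrt_upoly {α : Type} [TEnc α] {x : α → List Bool} (hx : NPC.Poly x) :
    UPoly (fun a => Nat.sqrt (x a).length) := by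
  have hl : NPC.Poly (fun a => (x a).length) := Poly.length hx
  have h1 : NPC.Poly (fun r : α × ℕ => decide ((r.2 + 1) * (r.2 + 1) ≤ (x r.1).length)) :=
    Poly.decide_le (Poly.mul (Poly.succ (Poly.snd Poly.id)) (Poly.succ (Poly.snd Poly.id)))
      (hl.comp (Poly.fst Poly.id))
  have h2 : NPC.Poly (fun a => Nat.sqrt (x a).length) :=
    (Poly.length (Poly.filter (l := fun a => List.range (x a).length)
      (p := fun a i => decide ((i + 1) * (i + 1) ≤ (x a).length))
      (UPoly.length hx).range h1)).congr fun a => sqrt_eq_count _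
  exact UPoly.of_le h2 (UPoly.length hx) (fun a => Nat.sqrt_le_self _)

/-- **The half-clique language is in `NP`.** -/
theorem inNP_halfClique : InNP HalfClique := by
  refine inNP_of_poly (fun p => chkH (Nat.sqrt p.1.length) p.1 p.2) ?_
    Polynomial.X fun x => ?_
  · have X : NPC.Poly (fun p : List Bool × List Bool => p.1) := Poly.fst Poly.id
    have W : NPC.Poly (fun p : List Bool × List Bool => p.2) := Poly.snd Poly.id
    exact chkH_poly (sqrt_upoly X) X W
  · simp only [Polynomial.eval_X]
    constructor
    · rintro ⟨S, hS, hSv, hcl⟩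
      refine ⟨(List.range (Nat.sqrt x.length)).map (fun a => decide (a ∈ S)), ?_, ?_⟩
      · simp only [List.length_map, List.length_range]
        exact Nat.sqrt_le_self _
      · have hget : ∀ a, ((List.range (Nat.sqrt x.length)).map
            (fun a => decide (a ∈ S))).getD a false = decide (a ∈ S) := by
          intro a
          by_cases ha : a < Nat.sqrt x.length
          · rw [List.getD_eq_getElem _ _ (by simpa using ha)]
            simp
          · rw [List.getD_eq_default _ _ (by simpa using ha)]
            symm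
            rw [decide_eq_false_iff_not]
            exact fun h => ha (hSv a h)
        unfold chkH
        simp only [hget]
        rw [Bool.and_eq_true]
        constructor
        · rw [decide_eq_true_eq]
          have h1 : ((List.range (Nat.sqrt x.length)).filter
              (fun a => decide (a ∈ S))).toFinset = S := by
            ext a
            simp only [List.mem_toFinset, List.mem_filter, List.mem_range, decide_eq_true_eq]
            exact ⟨fun h => h.2, fun h => ⟨hSv a h, h⟩⟩
          have h2 : ((List.range (Nat.sqrt x.length)).filter (fun a => decide (a ∈ S))).Nodup :=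
            List.nodup_range.filter _
          rw [← List.toFinset_card_of_nodup h2, h1]
          exact hS
        · rw [List.all_eq_true]
          intro a _
          rw [List.all_eq_true]
          intro b _
          by_cases hab : a < b ∧ a ∈ S ∧ b ∈ S
          · rw [hcl a hab.2.1 b hab.2.2 hab.1]
            simp
          · have : (decide (a < b) && (decide (a ∈ S) && decide (b ∈ S))) = false := by
              rw [← Bool.not_eq_true]
              simpa using fun h1 h2 h3 => hab ⟨h1, h2, h3⟩
            rw [this]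
            simp
    · rintro ⟨w, _, hw⟩
      unfold chkH at hw
      simp only [Bool.and_eq_true, decide_eq_true_eq, List.mem_range, List.all_eq_true] at hw
      obtain ⟨h1, h2⟩ := hw
      refine ⟨((List.range (Nat.sqrt x.length)).filter (fun a => w.getD a false)).toFinset,
        ?_, ?_, ?_⟩
      · rw [List.toFinset_card_of_nodup (List.nodup_range.filter _)]
        exact h1
      · intro a ha
        simp only [List.mem_toFinset, List.mem_filter, List.mem_range] at ha
        exact ha.1
      · intro a ha b hb hab
        simp only [List.mem_toFinset, List.mem_filter, List.mem_range] at ha hb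
        have := h2 a ha.1 b hb.1
        rw [ha.2, hb.2, decide_eq_true hab] at this
        simpa using this

/-- **The half-clique language is monotone.** -/
theorem halfClique_mono {N : ℕ} {x y : Fin N → Bool} (hxy : x ≤ y)
    (hx : List.ofFn x ∈ HalfClique) : List.ofFn y ∈ HalfClique := by
  obtain ⟨S, h1, h2, h3⟩ := hx
  have hget : ∀ (z : Fin N → Bool) (p : ℕ), (List.ofFn z).getD p false = true ↔
      ∃ h : p < N, z ⟨p, h⟩ = true := by
    intro z p
    by_cases hp : p < N
    · rw [List.getD_eq_getElem _ _ (by simpa using hp), List.getElem_ofFn]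
      exact ⟨fun h => ⟨hp, h⟩, fun ⟨_, h⟩ => h⟩
    · rw [List.getD_eq_default _ _ (by simpa using hp)]
      simp [hp]
  simp only [List.length_ofFn] at h1 h2 h3
  refine ⟨S, by simpa using h1, by simpa using h2, ?_⟩
  intro a ha b hb hab
  rw [List.length_ofFn]
  obtain ⟨hp, hv⟩ := (hget _ _).mp (h3 a ha b hb hab)
  rw [hget]
  refine ⟨hp, ?_⟩
  have := hxy ⟨_, hp⟩
  rw [hv] at this
  exact Bool.eq_true_of_true_le this

/-! ### NP-hardness -/

/-- Adjacency of vertex descriptors: tag `0` is a literal occurrence, tag `1` is a universal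
vertex, tag `2` is an isolated vertex. -/
def adjD (p q : ℕ × ℕ × Bool × ℕ) : Bool :=
  (decide (q.1 = 1) && !decide (p.1 = 2)) ||
    ((decide (p.1 = 0) && decide (q.1 = 0)) && LC.compat p.2 q.2)

/-- The vertices of the graph made from a formula. -/
def verts (φ : List (List (Bool × ℕ))) : List (ℕ × ℕ × Bool × ℕ) :=
  (LC.occ φ).map (fun o => (0, o)) ++
    ((0 :: 0 :: (LC.occ φ).map (fun _ => 0)).map (fun _ => (1, (0, false, 0))) ++
      (0 :: 0 :: (φ.map (fun _ => 0) ++ φ.map (fun _ => 0))).map (fun _ => (2, (0, false, 0))))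

/-- The reduction from satisfiability. -/
def redH (φ : List (List (Bool × ℕ))) : List Bool :=
  (verts φ).flatMap (fun p => (verts φ).map (fun q => adjD p q))

theorem verts_poly : NPC.Poly verts := by
  have hid : NPC.Poly (fun φ : List (List (Bool × ℕ)) => φ) := Poly.id
  have hocc : NPC.Poly LC.occ := by
    refine Poly.flatMap (F := fun _ p => p.1.map (fun l => (p.2, l))) (Poly.zipIdx hid) ?_
    exact NPC.Poly.map (F := fun (r : List (List (Bool × ℕ)) × List (Bool × ℕ) × ℕ) (l : Bool × ℕ) =>
      (r.2.2, l)) (Poly.fst (Poly.snd Poly.id))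
      (Poly.pair (Poly.snd (Poly.snd (Poly.fst Poly.id))) (Poly.snd Poly.id))
  have h0 : NPC.Poly (fun φ : List (List (Bool × ℕ)) =>
      (LC.occ φ).map (fun o => ((0 : ℕ), o))) :=
    NPC.Poly.map (F := fun _ o => ((0 : ℕ), o)) hocc
      (Poly.pair (NPC.Poly.const 0) (Poly.snd Poly.id))
  have h1 : NPC.Poly (fun φ : List (List (Bool × ℕ)) => (LC.occ φ).map (fun _ => (0 : ℕ))) :=
    NPC.Poly.map (F := fun _ _ => (0 : ℕ)) hocc (NPC.Poly.const 0)
  have h2 : NPC.Poly (fun φ : List (List (Bool × ℕ)) => φ.map (fun _ => (0 : ℕ))) :=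
    NPC.Poly.map (F := fun _ _ => (0 : ℕ)) hid (NPC.Poly.const 0)
  refine Poly.append h0 (Poly.append ?_ ?_)
  · exact NPC.Poly.map (F := fun _ _ => ((1 : ℕ), ((0 : ℕ), false, (0 : ℕ))))
      (Poly.cons (NPC.Poly.const 0) (Poly.cons (NPC.Poly.const 0) h1)) (NPC.Poly.const _)
  · exact NPC.Poly.map (F := fun _ _ => ((2 : ℕ), ((0 : ℕ), false, (0 : ℕ))))
      (Poly.cons (NPC.Poly.const 0) (Poly.cons (NPC.Poly.const 0) (Poly.append h2 h2)))
      (NPC.Poly.const _)

theorem redH_poly : NPC.Poly redH := by
  have hcompat : NPC.Poly (fun r : (ℕ × Bool × ℕ) × (ℕ × Bool × ℕ) => LC.compat r.1 r.2) := by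
    have P : NPC.Poly (fun r : (ℕ × Bool × ℕ) × (ℕ × Bool × ℕ) => r.1) := Poly.fst Poly.id
    have Q : NPC.Poly (fun r : (ℕ × Bool × ℕ) × (ℕ × Bool × ℕ) => r.2) := Poly.snd Poly.id
    exact Poly.and (Poly.not (Poly.decide_eq (Poly.fst P) (Poly.fst Q)))
      (Poly.or (Poly.not (Poly.decide_eq (Poly.snd (Poly.snd P)) (Poly.snd (Poly.snd Q))))
        (Poly.decide_eq (Poly.fst (Poly.snd P)) (Poly.fst (Poly.snd Q))))
  have hadj : NPC.Poly (fun r : (ℕ × ℕ × Bool × ℕ) × (ℕ × ℕ × Bool × ℕ) => adjD r.1 r.2) := by
    have P : NPC.Poly (fun r : (ℕ × ℕ × Bool × ℕ) × (ℕ × ℕ × Bool × ℕ) => r.1) := Poly.fst Poly.id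
    have Q : NPC.Poly (fun r : (ℕ × ℕ × Bool × ℕ) × (ℕ × ℕ × Bool × ℕ) => r.2) := Poly.snd Poly.id
    exact Poly.or (Poly.and (Poly.decide_eq (Poly.fst Q) (NPC.Poly.const 1))
      (Poly.not (Poly.decide_eq (Poly.fst P) (NPC.Poly.const 2))))
      (Poly.and (Poly.and (Poly.decide_eq (Poly.fst P) (NPC.Poly.const 0))
        (Poly.decide_eq (Poly.fst Q) (NPC.Poly.const 0)))
        (hcompat.comp (Poly.pair (Poly.snd P) (Poly.snd Q))))
  refine Poly.flatMap (F := fun φ p => (verts φ).map (fun q => adjD p q)) verts_poly ?_
  exact NPC.Poly.map (F := fun r q => adjD r.2 q) (verts_poly.comp (Poly.fst Poly.id))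
    (hadj.comp (Poly.pair (Poly.snd (Poly.fst Poly.id)) (Poly.snd Poly.id)))

theorem verts_length (φ : List (List (Bool × ℕ))) :
    (verts φ).length = 2 * ((LC.occ φ).length + φ.length + 2) := by
  simp only [verts, List.length_append, List.length_map, List.length_cons]
  omega

theorem redH_length (φ : List (List (Bool × ℕ))) :
    (redH φ).length = (verts φ).length * (verts φ).length := by
  simp [redH, List.length_flatMap]

theorem verts_occ (φ : List (List (Bool × ℕ))) (a : ℕ) (ha : a < (LC.occ φ).length)
    (ha' : a < (verts φ).length) : (verts φ)[a] = (0, (LC.occ φ)[a]) := by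
  unfold verts at ha' ⊢
  rw [List.getElem_append_left (by simpa using ha)]
  simp

theorem verts_univ (φ : List (List (Bool × ℕ))) (a : ℕ) (ha1 : (LC.occ φ).length ≤ a)
    (ha2 : a < 2 * (LC.occ φ).length + 2)
    (ha' : a < (verts φ).length) : (verts φ)[a] = (1, (0, false, 0)) := by
  unfold verts at ha' ⊢
  rw [List.getElem_append_right (by simpa using ha1)]
  rw [List.getElem_append_left (by simp; omega)]
  rw [List.getElem_map]

theorem verts_isol (φ : List (List (Bool × ℕ))) (a : ℕ) (ha1 : 2 * (LC.occ φ).length + 2 ≤ a)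
    (ha' : a < (verts φ).length) : (verts φ)[a] = (2, (0, false, 0)) := by
  unfold verts at ha' ⊢
  rw [List.getElem_append_right (by simp; omega)]
  rw [List.getElem_append_right (by simp; omega)]
  rw [List.getElem_map]

/-- The clique property of the graph of literal occurrences. -/
def CL (φ : List (List (Bool × ℕ))) : Prop :=
  ∃ S : Finset ℕ, S.card = φ.length ∧ (∀ a ∈ S, a < (LC.occ φ).length) ∧
    ∀ a ∈ S, ∀ b ∈ S, a < b → LC.entry (LC.occ φ).length (LC.mat φ) 0 a b = true

theorem sat_iff_CL (φ : List (List (Bool × ℕ))) : SAT φ ↔ CL φ := by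
  by_cases hφ : φ = []
  · subst hφ
    exact ⟨fun _ => ⟨∅, by simp, by simp, by simp⟩, fun _ => ⟨fun _ => true, by simp⟩⟩
  have hred : LC.red φ = List.replicate (LC.occ φ).length true ++ false ::
      (List.replicate φ.length true ++ false :: LC.mat φ) := by
    unfold LC.red
    have : φ.isEmpty = false := by cases φ <;> simp_all
    rw [this, cond_false, List.map_const', List.map_const']
  rw [LC.red_correct, hred, LC.mem_listClique_hdr]
  have hlen : 0 < φ.length := List.length_pos_iff.2 hφ
  constructor
  · rintro ⟨j, hj, S, hS, hSv, hcl⟩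
    have hj0 : j = 0 := by
      rw [LC.mat_length] at hj
      rcases Nat.eq_zero_or_pos ((LC.occ φ).length * (LC.occ φ).length) with h0 | h0
      · rw [h0] at hj
        simp at hj
      · rw [Nat.div_self h0] at hj
        omega
    subst hj0
    exact ⟨S, hS, hSv, hcl⟩
  · rintro ⟨S, hS, hSv, hcl⟩
    refine ⟨0, ?_, S, hS, hSv, hcl⟩
    rw [LC.mat_length]
    obtain ⟨a, ha⟩ : S.Nonempty := Finset.card_pos.mp (by omega)
    have := hSv a ha
    rw [Nat.div_self (Nat.mul_pos (by omega) (by omega))]
    exact Nat.one_pos

theorem redH_correct (φ : List (List (Bool × ℕ))) : SAT φ ↔ redH φ ∈ HalfClique := by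
  rw [sat_iff_CL]
  have hsq : Nat.sqrt (redH φ).length = (verts φ).length := by
    rw [redH_length, Nat.sqrt_eq]
  have hget : ∀ a b (ha : a < (verts φ).length) (hb : b < (verts φ).length),
      (redH φ).getD (a * (verts φ).length + b) false = adjD (verts φ)[a] (verts φ)[b] := by
    intro a b ha hb
    exact LC.flatMap_map_getD adjD (verts φ) (verts φ) a b ha hb
  have hentry : ∀ a b (ha : a < (LC.occ φ).length) (hb : b < (LC.occ φ).length),
      LC.entry (LC.occ φ).length (LC.mat φ) 0 a b = LC.compat (LC.occ φ)[a] (LC.occ φ)[b] := by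
    intro a b ha hb
    unfold LC.entry
    rw [Nat.zero_mul, Nat.zero_add]
    exact LC.flatMap_map_getD LC.compat (LC.occ φ) (LC.occ φ) a b ha hb
  have hlen := verts_length φ
  change _ ↔ ∃ S : Finset ℕ, Nat.sqrt (redH φ).length ≤ 2 * S.card ∧
    (∀ a ∈ S, a < Nat.sqrt (redH φ).length) ∧
    ∀ a ∈ S, ∀ b ∈ S, a < b → (redH φ).getD (a * Nat.sqrt (redH φ).length + b) false = true
  rw [hsq]
  constructor
  · rintro ⟨S, hS, hSv, hcl⟩
    refine ⟨S ∪ Finset.Ico (LC.occ φ).length (2 * (LC.occ φ).length + 2), ?_, ?_, ?_⟩
    · rw [Finset.card_union_of_disjoint, Nat.card_Ico, hS]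
      · omega
      · rw [Finset.disjoint_left]
        intro a ha
        have := hSv a ha
        simp only [Finset.mem_Ico]
        omega
    · intro a ha
      rw [Finset.mem_union, Finset.mem_Ico] at ha
      rcases ha with ha | ha
      · have := hSv a ha
        omega
      · omega
    · intro a ha b hb hab
      rw [Finset.mem_union, Finset.mem_Ico] at ha hb
      have hb2 : b < (verts φ).length := by
        rcases hb with hb | hb
        · have := hSv b hb
          omega
        · omega
      rw [hget a b (by omega) hb2]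
      rcases hb with hb | hb
      · have hb' := hSv b hb
        have ha' : a ∈ S := by
          rcases ha with ha | ha
          · exact ha
          · omega
        rw [verts_occ φ a (by omega), verts_occ φ b hb']
        have := hcl a ha' b hb hab
        rw [hentry a b (by omega) hb'] at this
        simp [adjD, this]
      · rw [verts_univ φ b hb.1 hb.2]
        by_cases ha3 : a < (LC.occ φ).length
        · rw [verts_occ φ a ha3]
          simp [adjD]
        · rw [verts_univ φ a (by omega) (by omega)]
          simp [adjD]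
  · rintro ⟨S, hS, hSv, hcl⟩
    have hno : ∀ b ∈ S, b < 2 * (LC.occ φ).length + 2 := by
      intro b hb
      by_contra hb2
      push Not at hb2
      obtain ⟨c, hc, hcb⟩ : ∃ c ∈ S, c ≠ b := by
        by_contra hall
        push Not at hall
        have : S ⊆ {b} := fun c hc => Finset.mem_singleton.mpr (hall c hc)
        have := Finset.card_le_card this
        rw [Finset.card_singleton] at this
        omega
      rcases lt_or_gt_of_ne hcb with h | h
      · have h1 := hcl c hc b hb h
        rw [hget c b (hSv c hc) (hSv b hb), verts_isol φ b hb2] at h1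
        simp [adjD] at h1
      · have h1 := hcl b hb c hc h
        rw [hget b c (hSv b hb) (hSv c hc), verts_isol φ c (by omega)] at h1
        simp [adjD] at h1
    have hcard : φ.length ≤ (S.filter (fun a => a < (LC.occ φ).length)).card := by
      have h1 : S ⊆ S.filter (fun a => a < (LC.occ φ).length) ∪
          Finset.Ico (LC.occ φ).length (2 * (LC.occ φ).length + 2) := by
        intro a ha
        have := hno a ha
        rw [Finset.mem_union, Finset.mem_filter, Finset.mem_Ico]
        by_cases h : a < (LC.occ φ).length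
        · exact Or.inl ⟨ha, h⟩
        · exact Or.inr ⟨by omega, this⟩
      have h2 := (Finset.card_le_card h1).trans (Finset.card_union_le _ _)
      rw [Nat.card_Ico] at h2
      omega
    obtain ⟨S', hS', hS'c⟩ := Finset.exists_subset_card_eq hcard
    refine ⟨S', hS'c, ?_, ?_⟩
    · intro a ha
      exact (Finset.mem_filter.mp (hS' ha)).2
    · intro a ha b hb hab
      obtain ⟨ha1, ha2⟩ := Finset.mem_filter.mp (hS' ha)
      obtain ⟨hb1, hb2⟩ := Finset.mem_filter.mp (hS' hb)
      have h1 := hcl a ha1 b hb1 hab
      rw [hget a b (hSv a ha1) (hSv b hb1), verts_occ φ a ha2, verts_occ φ b hb2] at h1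
      rw [hentry a b ha2 hb2]
      simpa [adjD] using h1

/-- **The half-clique language is `NP`-hard.** -/
theorem npHard_halfClique : NPHard HalfClique := by
  intro L hL
  obtain ⟨f, hf, hfL⟩ := hardI_SAT L hL
  exact ⟨fun x => redH (f x), polyTime_raw hf redH_poly, fun x => (hfL x).trans (redH_correct _)⟩

end Pool.Agent.H520R2.HC
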