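import Pool.Agent.H520R2.NMChain
import Pool.Agent.H520R2.HalfClique

/-!
# Many clique instances inside one half-clique instance

There are `g` left groups and `g` right groups of `k * v` vertices (`k` parts with `v` vertices),
`U` universal and `R` isolated vertices. Each pair of a left group and a right group carries a
`k`-clique instance on its cross edges.
-/

namespace Pool.Agent.H520R2.HC

open Pool.Agent.H520R2 Pool.Agent.H520R2.NM Finset

/-- Vertices of the left (or right) groups: group, part, element. -/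
abbrev Blk (g k v : ℕ) := Fin g × Fin k × Fin v

/-- The vertices of the host graph. -/
abbrev Vx (g k v U R : ℕ) := (Blk g k v ⊕ Blk g k v) ⊕ (Fin U ⊕ Fin R)

variable {g k v U R : ℕ}

/-- Adjacency of a left and a right vertex. -/
def cross (y : Fin g × Fin g → SimpleGraph (Fin v)) (p q : Blk g k v) : Prop :=
  (p.2.1 = q.2.1 ∧ p.2.2 = q.2.2) ∨ q.2.1 < p.2.1 ∨
    (p.2.1 < q.2.1 ∧ (y (p.1, q.1)).Adj p.2.2 q.2.2)

/-- Adjacency of two left or of two right vertices. -/
def inner (p q : Blk g k v) : Prop := p.1 = q.1 ∧ p.2.1 ≠ q.2.1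

/-- Adjacency in the host graph. -/
def adjV (y : Fin g × Fin g → SimpleGraph (Fin v)) : Vx g k v U R → Vx g k v U R → Prop
  | .inl (.inl p), .inl (.inl q) => inner p q
  | .inl (.inr p), .inl (.inr q) => inner p q
  | .inl (.inl p), .inl (.inr q) => cross y p q
  | .inl (.inr p), .inl (.inl q) => cross y q p
  | .inr (.inl u), .inr (.inl u') => u ≠ u'
  | .inr (.inl _), .inl _ => True
  | .inl _, .inr (.inl _) => True
  | .inr (.inr _), _ => False
  | .inl _, .inr (.inr _) => False
  | .inr (.inl _), .inr (.inr _) => False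

theorem inner_symm {p q : Blk g k v} (h : inner p q) : inner q p := ⟨h.1.symm, h.2.symm⟩

theorem adjV_symm (y : Fin g × Fin g → SimpleGraph (Fin v)) (a b : Vx g k v U R)
    (h : adjV y a b) : adjV y b a := by
  rcases a with (p | p) | (p | p) <;> rcases b with (q | q) | (q | q) <;>
    simp only [adjV] at h ⊢
  · exact inner_symm h
  · exact h
  · exact h
  · exact inner_symm h
  · exact fun h' => h h'.symm

theorem adjV_irrefl (y : Fin g × Fin g → SimpleGraph (Fin v)) (a : Vx g k v U R) :
    ¬ adjV y a a := by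
  rcases a with (p | p) | (p | p) <;> simp [adjV, inner]

/-- The host graph. -/
def hostG (y : Fin g × Fin g → SimpleGraph (Fin v)) : SimpleGraph (Vx g k v U R) where
  Adj := adjV y
  symm := ⟨fun a b => adjV_symm y a b⟩
  loopless := ⟨fun a => adjV_irrefl y a⟩

theorem adjV_mono {y y' : Fin g × Fin g → SimpleGraph (Fin v)} (h : y ≤ y')
    (a b : Vx g k v U R) (hab : adjV y a b) : adjV y' a b := by
  rcases a with (p | p) | (p | p) <;> rcases b with (q | q) | (q | q) <;>
    simp only [adjV] at hab ⊢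
  · exact hab
  · rcases hab with h1 | h1 | ⟨h1, h2⟩
    · exact Or.inl h1
    · exact Or.inr (Or.inl h1)
    · exact Or.inr (Or.inr ⟨h1, h _ h2⟩)
  · rcases hab with h1 | h1 | ⟨h1, h2⟩
    · exact Or.inl h1
    · exact Or.inr (Or.inl h1)
    · exact Or.inr (Or.inr ⟨h1, h _ h2⟩)
  · exact hab
  · exact hab

/-- As a function of one of the graphs, an adjacency in the host graph is a constant or an
adjacency. -/
theorem adjV_base (y : Fin g × Fin g → SimpleGraph (Fin v)) (J : Fin g × Fin g)
    (a b : Vx g k v U R) : (∃ c : Prop, ∀ G, adjV (Function.update y J G) a b ↔ c) ∨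
      ∃ s t : Fin v, ∀ G, adjV (Function.update y J G) a b ↔ G.Adj s t := by
  have hcross : ∀ p q : Blk g k v, (∃ c : Prop, ∀ G, cross (Function.update y J G) p q ↔ c) ∨
      ∃ s t : Fin v, ∀ G, cross (Function.update y J G) p q ↔ G.Adj s t := by
    intro p q
    unfold cross
    by_cases hJ : (p.1, q.1) = J
    · subst hJ
      by_cases h : p.2.1 < q.2.1
      · right
        refine ⟨p.2.2, q.2.2, fun G => ?_⟩
        rw [Function.update_self]
        constructor
        · rintro (h1 | h1 | h1)
          · exact absurd h1.1 (ne_of_lt h)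
          · exact absurd h1 (lt_asymm h)
          · exact h1.2
        · intro hG
          exact Or.inr (Or.inr ⟨h, hG⟩)
      · left
        refine ⟨(p.2.1 = q.2.1 ∧ p.2.2 = q.2.2) ∨ q.2.1 < p.2.1, fun G => ?_⟩
        constructor
        · rintro (h1 | h1 | h1)
          · exact Or.inl h1
          · exact Or.inr h1
          · exact absurd h1.1 h
        · rintro (h1 | h1)
          · exact Or.inl h1
          · exact Or.inr (Or.inl h1)
    · left
      refine ⟨(p.2.1 = q.2.1 ∧ p.2.2 = q.2.2) ∨ q.2.1 < p.2.1 ∨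
        (p.2.1 < q.2.1 ∧ (y (p.1, q.1)).Adj p.2.2 q.2.2), fun G => ?_⟩
      rw [Function.update_of_ne hJ]
  rcases a with (p | p) | (p | p) <;> rcases b with (q | q) | (q | q) <;>
    simp only [adjV]
  · exact Or.inl ⟨_, fun _ => Iff.rfl⟩
  · exact hcross p q
  · exact Or.inl ⟨_, fun _ => Iff.rfl⟩
  · exact Or.inl ⟨_, fun _ => Iff.rfl⟩
  · exact hcross q p
  · exact Or.inl ⟨_, fun _ => Iff.rfl⟩
  · exact Or.inl ⟨_, fun _ => Iff.rfl⟩
  · exact Or.inl ⟨_, fun _ => Iff.rfl⟩
  · exact Or.inl ⟨_, fun _ => Iff.rfl⟩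
  · exact Or.inl ⟨_, fun _ => Iff.rfl⟩
  · exact Or.inl ⟨_, fun _ => Iff.rfl⟩
  · exact Or.inl ⟨_, fun _ => Iff.rfl⟩
  · exact Or.inl ⟨_, fun _ => Iff.rfl⟩
  · exact Or.inl ⟨_, fun _ => Iff.rfl⟩
  · exact Or.inl ⟨_, fun _ => Iff.rfl⟩
  · exact Or.inl ⟨_, fun _ => Iff.rfl⟩

/-- In a graph in which vertices of the same part are not adjacent, a clique has at most `k`
vertices, and if it has `k` vertices then it meets every part. -/
theorem part_card (T : Finset (Blk g k v)) (hT : ∀ p ∈ T, ∀ q ∈ T, p ≠ q → inner p q) :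
    T.card ≤ k ∧ (T.card = k → ∀ i : Fin k, ∃ p ∈ T, p.2.1 = i) := by
  classical
  have hinj : Set.InjOn (fun p : Blk g k v => p.2.1) (T : Set (Blk g k v)) := by
    intro p hp q hq hpq
    by_contra hne
    exact (hT p hp q hq hne).2 hpq
  have h1 : (T.image (fun p : Blk g k v => p.2.1)).card = T.card := card_image_of_injOn hinj
  constructor
  · rw [← h1]
    calc _ ≤ (univ : Finset (Fin k)).card := card_le_univ _
      _ = k := by simp
  · intro hc i
    have h2 : T.image (fun p : Blk g k v => p.2.1) = univ := by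
      apply eq_univ_of_card
      rw [h1, hc, Fintype.card_fin]
    have h3 : i ∈ T.image (fun p : Blk g k v => p.2.1) := by rw [h2]; exact mem_univ i
    obtain ⟨p, hp, hpi⟩ := mem_image.mp h3
    exact ⟨p, hp, hpi⟩

theorem host_iff (hk : 2 ≤ k) (y : Fin g × Fin g → SimpleGraph (Fin v)) :
    (∃ S : Finset (Vx g k v U R), U + 2 * k ≤ S.card ∧
      ∀ a ∈ S, ∀ b ∈ S, a ≠ b → (hostG y).Adj a b) ↔ ∃ J, ¬ (y J).CliqueFree k := by
  classical
  constructor
  · rintro ⟨S, hS, hcl⟩
    have hiso : ∀ r : Fin R, (.inr (.inr r) : Vx g k v U R) ∉ S := by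
      intro r hr
      obtain ⟨c, hc, hcr⟩ := exists_mem_ne (show 1 < S.card by omega)
        (.inr (.inr r) : Vx g k v U R)
      have h := hcl _ hr _ hc (fun h => hcr h.symm)
      simp [hostG, adjV] at h
    have hc1 := card_toLeft_add_card_toRight (u := S)
    have hc2 := card_toLeft_add_card_toRight (u := S.toLeft)
    have hc3 := card_toLeft_add_card_toRight (u := S.toRight)
    have hc4 : S.toRight.toRight = ∅ := by
      rw [eq_empty_iff_forall_notMem]
      intro r hr
      rw [mem_toRight, mem_toRight] at hr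
      exact hiso r hr
    have hc5 : S.toRight.toLeft.card ≤ U := by
      calc _ ≤ (univ : Finset (Fin U)).card := card_le_univ _
        _ = U := by simp
    rw [hc4, card_empty] at hc3
    have hL := part_card S.toLeft.toLeft (by
      intro p hp q hq hpq
      rw [mem_toLeft, mem_toLeft] at hp hq
      have h := hcl _ hp _ hq (by simpa using hpq)
      simpa [hostG, adjV] using h)
    have hR := part_card S.toLeft.toRight (by
      intro p hp q hq hpq
      rw [mem_toRight, mem_toLeft] at hp hq
      have h := hcl _ hp _ hq (by simpa using hpq)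
      simpa [hostG, adjV] using h)
    have hL2 := hL.2 (by omega)
    have hR2 := hR.2 (by omega)
    choose l hl1 hl2 using hL2
    choose r hr1 hr2 using hR2
    simp only [mem_toLeft, mem_toRight] at hl1 hr1
    have hcr : ∀ i j, cross y (l i) (r j) := by
      intro i j
      have h := hcl _ (hl1 i) _ (hr1 j) (by simp)
      simpa [hostG, adjV] using h
    have hll : ∀ i j, (l i).1 = (l j).1 := by
      intro i j
      by_cases hij : l i = l j
      · rw [hij]
      · have h := hcl _ (hl1 i) _ (hl1 j) (by simpa using hij)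
        simp only [hostG, adjV] at h
        exact h.1
    have hrr : ∀ i j, (r i).1 = (r j).1 := by
      intro i j
      by_cases hij : r i = r j
      · rw [hij]
      · have h := hcl _ (hr1 i) _ (hr1 j) (by simpa using hij)
        simp only [hostG, adjV] at h
        exact h.1
    have heq : ∀ i, (l i).2.2 = (r i).2.2 := by
      intro i
      rcases hcr i i with h | h | h
      · exact h.2
      · rw [hl2, hr2] at h
        exact absurd h (lt_irrefl _)
      · rw [hl2, hr2] at h
        exact absurd h.1 (lt_irrefl _)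
    let i0 : Fin k := ⟨0, by omega⟩
    refine ⟨((l i0).1, (r i0).1), ?_⟩
    have hadj : ∀ i j, i < j → (y ((l i0).1, (r i0).1)).Adj (l i).2.2 (l j).2.2 := by
      intro i j hij
      rcases hcr i j with h | h | h
      · rw [hl2, hr2] at h
        exact absurd h.1 (ne_of_lt hij)
      · rw [hl2, hr2] at h
        exact absurd h (lt_asymm hij)
      · rw [hll i i0, hrr j i0, ← heq j] at h
        exact h.2
    have hne : ∀ i j, i ≠ j → (y ((l i0).1, (r i0).1)).Adj (l i).2.2 (l j).2.2 := by
      intro i j hij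
      rcases lt_or_gt_of_ne hij with h | h
      · exact hadj i j h
      · exact (hadj j i h).symm
    intro hfree
    apply hfree (univ.image (fun i => (l i).2.2))
    rw [SimpleGraph.isNClique_iff]
    constructor
    · intro a ha b hb hab
      simp only [coe_image, coe_univ, Set.image_univ, Set.mem_range] at ha hb
      obtain ⟨i, rfl⟩ := ha
      obtain ⟨j, rfl⟩ := hb
      exact hne i j (fun h => hab (by rw [h]))
    · rw [card_image_of_injective, card_univ, Fintype.card_fin]
      intro i j hij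
      by_contra hne'
      have := hne i j hne'
      simp only at hij
      rw [hij] at this
      exact (y ((l i0).1, (r i0).1)).loopless.irrefl _ this
  · rintro ⟨⟨I, J⟩, hfree⟩
    rw [SimpleGraph.CliqueFree] at hfree
    push Not at hfree
    obtain ⟨T, hT⟩ := hfree
    rw [SimpleGraph.isNClique_iff] at hT
    obtain ⟨hT1, hT2⟩ := hT
    let e : Fin k ≃o T := T.orderIsoOfFin hT2
    have hadj : ∀ i j : Fin k, i < j → (y (I, J)).Adj (e i : Fin v) (e j : Fin v) := by
      intro i j hij
      apply hT1 (e i).2 (e j).2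
      intro h
      have := e.injective (Subtype.ext h)
      exact absurd this (ne_of_lt hij)
    let fL : Fin k ↪ Blk g k v := ⟨fun i => (I, i, (e i : Fin v)), fun i j h => by
      simp only [Prod.mk.injEq] at h
      exact h.2.1⟩
    let fR : Fin k ↪ Blk g k v := ⟨fun i => (J, i, (e i : Fin v)), fun i j h => by
      simp only [Prod.mk.injEq] at h
      exact h.2.1⟩
    refine ⟨((univ.map fL).disjSum (univ.map fR)).disjSum ((univ : Finset (Fin U)).disjSum ∅),
      ?_, ?_⟩
    · rw [card_disjSum, card_disjSum, card_disjSum, card_map, card_map, card_univ, card_univ,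
        Fintype.card_fin, Fintype.card_fin, card_empty]
      omega
    · rintro ((p | p) | (p | p)) ha ((q | q) | (q | q)) hb hab <;>
        simp only [inl_mem_disjSum, inr_mem_disjSum, mem_map, mem_univ, true_and,
          notMem_empty] at ha hb <;> simp only [hostG, adjV]
      · obtain ⟨i, rfl⟩ := ha
        obtain ⟨j, rfl⟩ := hb
        exact ⟨rfl, fun h => hab (by rw [show i = j from h])⟩
      · obtain ⟨i, rfl⟩ := ha
        obtain ⟨j, rfl⟩ := hb
        rcases lt_trichotomy i j with h | h | h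
        · exact Or.inr (Or.inr ⟨h, hadj i j h⟩)
        · exact Or.inl ⟨h, by subst h; rfl⟩
        · exact Or.inr (Or.inl h)
      · obtain ⟨i, rfl⟩ := ha
        obtain ⟨j, rfl⟩ := hb
        rcases lt_trichotomy j i with h | h | h
        · exact Or.inr (Or.inr ⟨h, hadj j i h⟩)
        · exact Or.inl ⟨h, by subst h; rfl⟩
        · exact Or.inr (Or.inl h)
      · obtain ⟨i, rfl⟩ := ha
        obtain ⟨j, rfl⟩ := hb
        exact ⟨rfl, fun h => hab (by rw [show i = j from h])⟩
      · exact fun h => hab (by rw [h])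

/-! ### Words -/

/-- The word of length `N` that codes a graph on `n` vertices. -/
noncomputable def word (N n : ℕ) (H : SimpleGraph (Fin n)) : Fin N → Bool := by
  classical
  exact fun p => decide (∃ a b : Fin n, a < b ∧ H.Adj a b ∧ (a : ℕ) * n + b = p)

theorem code_inj {n : ℕ} {a b a' b' : Fin n} (h : (a : ℕ) * n + b = a' * n + b') :
    a = a' ∧ b = b' := by
  have h1 : (b : ℕ) = b' := by
    have := congrArg (· % n) h
    simpa [Nat.add_mod, Nat.mul_mod_left, Nat.mod_eq_of_lt b.2, Nat.mod_eq_of_lt b'.2] using this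
  have hn : 0 < n := lt_of_le_of_lt (Nat.zero_le _) a.2
  have h2 : (a : ℕ) * n = a' * n := by omega
  exact ⟨Fin.ext (Nat.eq_of_mul_eq_mul_right hn h2), Fin.ext h1⟩

theorem code_lt {n N : ℕ} (hN : n * n ≤ N) (a b : Fin n) : (a : ℕ) * n + b < N := by
  have h1 : (a : ℕ) + 1 ≤ n := a.2
  have h2 : ((a : ℕ) + 1) * n ≤ n * n := Nat.mul_le_mul_right _ h1
  have h3 := b.2
  have h4 : ((a : ℕ) + 1) * n = a * n + n := by ring
  omega

theorem word_get {N n : ℕ} (hN : n * n ≤ N) (H : SimpleGraph (Fin n)) (a b : Fin n)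
    (hab : a < b) : (List.ofFn (word N n H)).getD ((a : ℕ) * n + b) false = true ↔ H.Adj a b := by
  have hlt := code_lt hN a b
  rw [List.getD_eq_getElem _ _ (by simpa using hlt), List.getElem_ofFn]
  simp only [word, decide_eq_true_eq]
  constructor
  · rintro ⟨a', b', _, h2, h3⟩
    obtain ⟨h4, h5⟩ := code_inj h3
    rw [← h4, ← h5]
    exact h2
  · intro h
    exact ⟨a, b, hab, h, rfl⟩

theorem word_mem (N : ℕ) (H : SimpleGraph (Fin (Nat.sqrt N))) :
    List.ofFn (word N (Nat.sqrt N) H) ∈ HalfClique ↔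
      ∃ S : Finset (Fin (Nat.sqrt N)), Nat.sqrt N ≤ 2 * S.card ∧
        ∀ a ∈ S, ∀ b ∈ S, a ≠ b → H.Adj a b := by
  classical
  have hN : Nat.sqrt N * Nat.sqrt N ≤ N := Nat.sqrt_le N
  unfold HalfClique
  simp only [Set.mem_ofPred_eq, List.length_ofFn]
  constructor
  · rintro ⟨S, h1, h2, h3⟩
    refine ⟨univ.filter (fun a : Fin (Nat.sqrt N) => (a : ℕ) ∈ S), ?_, ?_⟩
    · have : (univ.filter (fun a : Fin (Nat.sqrt N) => (a : ℕ) ∈ S)).card = S.card := by
        apply card_bij (fun (a : Fin (Nat.sqrt N)) _ => (a : ℕ))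
        · intro a ha
          exact (mem_filter.mp ha).2
        · intro a _ b _ h
          exact Fin.ext h
        · intro a ha
          exact ⟨⟨a, h2 a ha⟩, mem_filter.mpr ⟨mem_univ _, ha⟩, rfl⟩
      rw [this]
      exact h1
    · intro a ha b hb hab
      rw [mem_filter] at ha hb
      rcases lt_or_gt_of_ne hab with h | h
      · exact (word_get hN H a b h).mp (h3 a ha.2 b hb.2 h)
      · exact ((word_get hN H b a h).mp (h3 b hb.2 a ha.2 h)).symm
  · rintro ⟨S, h1, h2⟩
    refine ⟨S.map Fin.valEmbedding, by rw [card_map]; exact h1, ?_, ?_⟩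
    · intro a ha
      rw [mem_map] at ha
      obtain ⟨a', _, rfl⟩ := ha
      exact a'.2
    · intro a ha b hb hab
      rw [mem_map] at ha hb
      obtain ⟨a', ha', rfl⟩ := ha
      obtain ⟨b', hb', rfl⟩ := hb
      have hab' : a' < b' := hab
      exact (word_get hN H a' b' hab').mpr (h2 a' ha' b' hb' (ne_of_lt hab'))

theorem word_mono {N n : ℕ} {H H' : SimpleGraph (Fin n)} (h : H ≤ H') :
    word N n H ≤ word N n H' := by
  intro p
  by_cases hp : word N n H p = true
  · have : word N n H' p = true := by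
      simp only [word, decide_eq_true_eq] at hp ⊢
      obtain ⟨a, b, hab, hadj, hpos⟩ := hp
      exact ⟨a, b, hab, h hadj, hpos⟩
    rw [hp, this]
  · rw [Bool.not_eq_true] at hp
    rw [hp]
    exact Bool.false_le _

/-! ### The chain -/

/-- The graph on `n` vertices given by a graph on an equivalent vertex set. -/
def relabel {V : Type} {n : ℕ} (σ : V ≃ Fin n) (H : SimpleGraph V) : SimpleGraph (Fin n) :=
  H.comap σ.symm

theorem relabel_clique {V : Type} {n : ℕ} (σ : V ≃ Fin n) (H : SimpleGraph V) (c : ℕ) :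
    (∃ S : Finset (Fin n), c ≤ S.card ∧ ∀ a ∈ S, ∀ b ∈ S, a ≠ b → (relabel σ H).Adj a b) ↔
      ∃ S : Finset V, c ≤ S.card ∧ ∀ a ∈ S, ∀ b ∈ S, a ≠ b → H.Adj a b := by
  constructor
  · rintro ⟨S, h1, h2⟩
    refine ⟨S.map σ.symm.toEmbedding, by rw [card_map]; exact h1, ?_⟩
    intro a ha b hb hab
    rw [mem_map] at ha hb
    obtain ⟨a', ha', rfl⟩ := ha
    obtain ⟨b', hb', rfl⟩ := hb
    exact h2 a' ha' b' hb' (fun h => hab (by rw [h]))
  · rintro ⟨S, h1, h2⟩
    refine ⟨S.map σ.toEmbedding, by rw [card_map]; exact h1, ?_⟩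
    intro a ha b hb hab
    rw [mem_map] at ha hb
    obtain ⟨a', ha', rfl⟩ := ha
    obtain ⟨b', hb', rfl⟩ := hb
    change H.Adj (σ.symm (σ a')) (σ.symm (σ b'))
    rw [σ.symm_apply_apply, σ.symm_apply_apply]
    exact h2 a' ha' b' hb' (fun h => hab (by rw [h]))

theorem relabel_mono {V : Type} {n : ℕ} (σ : V ≃ Fin n) {H H' : SimpleGraph V} (h : H ≤ H') :
    relabel σ H ≤ relabel σ H' := fun _ _ hab => h hab

/-- Assemble graphs on `v` vertices into an input of a circuit for the half-clique language. -/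
noncomputable def asmH (N : ℕ) (σ : Vx g k v U R ≃ Fin (Nat.sqrt N))
    (y : Fin (g * g) → SimpleGraph (Fin v)) : Fin N → Bool :=
  word N (Nat.sqrt N) (relabel σ (hostG (fun p => y (finProdFinEquiv p))))

theorem asmH_mono (N : ℕ) (σ : Vx g k v U R ≃ Fin (Nat.sqrt N))
    (y y' : Fin (g * g) → SimpleGraph (Fin v)) (h : y ≤ y') : asmH N σ y ≤ asmH N σ y' := by
  apply word_mono
  apply relabel_mono
  intro a b hab
  exact adjV_mono (fun p => h _) a b hab

theorem asmH_base (N : ℕ) (σ : Vx g k v U R ≃ Fin (Nat.sqrt N))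
    (y : Fin (g * g) → SimpleGraph (Fin v)) (J : Fin (g * g))
    (f : (Fin N → Bool) → Bool) (hf : f ∈ VB (Fin N)) :
    f ∘ (fun G => asmH N σ (Function.update y J G)) ∈ GB (Fin v) := by
  classical
  rcases hf with ⟨b, rfl⟩ | ⟨p, rfl⟩
  · exact Or.inl ⟨b, rfl⟩
  · have hupd : ∀ G : SimpleGraph (Fin v), (fun p => Function.update y J G (finProdFinEquiv p)) =
        Function.update (fun p => y (finProdFinEquiv p)) (finProdFinEquiv.symm J) G := by
      intro G
      funext q
      by_cases hq : q = finProdFinEquiv.symm J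
      · subst hq
        rw [Function.update_self, Equiv.apply_symm_apply, Function.update_self]
      · rw [Function.update_of_ne hq, Function.update_of_ne]
        intro h
        exact hq (by rw [← h, Equiv.symm_apply_apply])
    by_cases hp : ∃ a b : Fin (Nat.sqrt N), a < b ∧ (a : ℕ) * Nat.sqrt N + b = p
    · obtain ⟨a, b, hab, hpos⟩ := hp
      have hval : ∀ G, asmH N σ (Function.update y J G) p = true ↔
          adjV (Function.update (fun p => y (finProdFinEquiv p)) (finProdFinEquiv.symm J) G)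
            (σ.symm a) (σ.symm b) := by
        intro G
        simp only [asmH, word, decide_eq_true_eq]
        rw [hupd G]
        constructor
        · rintro ⟨a', b', _, hadj, hpos'⟩
          obtain ⟨h1, h2⟩ := code_inj (hpos'.trans hpos.symm)
          subst h1 h2
          exact hadj
        · intro h
          exact ⟨a, b, hab, h, hpos⟩
      rcases adjV_base (fun p => y (finProdFinEquiv p)) (finProdFinEquiv.symm J) (σ.symm a)
        (σ.symm b) with ⟨c, hc⟩ | ⟨s, t, hst⟩
      · left
        refine ⟨decide c, ?_⟩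
        funext G
        simp only [Function.comp]
        rw [Bool.eq_iff_iff, hval G, hc G, decide_eq_true_eq]
      · right
        refine ⟨s, t, ?_⟩
        funext G
        simp only [Function.comp]
        rw [Bool.eq_iff_iff, hval G, hst G]
        simp [adjFn]
    · left
      refine ⟨false, ?_⟩
      funext G
      simp only [Function.comp, asmH, word, decide_eq_false_iff_not]
      rintro ⟨a, b, hab, _, hpos⟩
      exact hp ⟨a, b, hab, hpos⟩

/-- **The chain theorem for the half-clique language.** -/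
theorem half_chain (N t : ℕ) (ht : 2 ≤ t) {n : ℕ} (C : Circuit (Fin N) n)
    (out : Wire (Fin N) n)
    (hC : ∀ x : Fin N → Bool, out.eval x (C.vals x) = true ↔ List.ofFn x ∈ HalfClique)
    (hsize : C.size + C.fanins.sum < 2 ^ t) :
    ∃ x : ℕ → Fin N → Bool,
      (∀ i < N / (1600 * t ^ 10) ^ 2, x i ≤ x (i + 1)) ∧
      (∀ i < N / (1600 * t ^ 10) ^ 2, C.probes (x i) ≠ C.probes (x (i + 1))) ∧
      (0 < N / (1600 * t ^ 10) ^ 2 →
        ∀ i ≤ N / (1600 * t ^ 10) ^ 2, List.ofFn (x i) ∉ HalfClique) := by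
  classical
  by_cases hM : N / (1600 * t ^ 10) ^ 2 = 0
  · rw [hM]
    exact ⟨fun _ _ => false, by simp, by simp, by simp⟩
  -- parameters
  obtain ⟨s, hs⟩ : ∃ s, s = Nat.sqrt N := ⟨_, rfl⟩
  have hN2 : N < (s + 1) * (s + 1) := by rw [hs]; exact Nat.lt_succ_sqrt N
  obtain ⟨D, hD⟩ : ∃ D, D = t ^ 10 := ⟨_, rfl⟩
  rw [← hD]
  rw [← hD] at hM
  have hDpos : 0 < D := by rw [hD]; positivity
  have ht10 : t ^ 2 ≤ D := by rw [hD]; exact Nat.pow_le_pow_right (by omega) (by norm_num)
  obtain ⟨g, hg⟩ : ∃ g, g = s / (800 * D) := ⟨_, rfl⟩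
  have hg1 : g * (800 * D) ≤ s := by rw [hg]; exact Nat.div_mul_le_self _ _
  have hg2 : s < (g + 1) * (800 * D) := by
    have := Nat.lt_mul_div_succ s (show 0 < 800 * D by omega)
    rw [← hg] at this
    calc s < 800 * D * (g + 1) := this
      _ = (g + 1) * (800 * D) := by ring
  have hMg : N / (1600 * D) ^ 2 ≤ g * g ∧ 0 < g := by
    have h1 : N < (800 * D * (g + 1)) * (800 * D * (g + 1)) := by
      have : s + 1 ≤ 800 * D * (g + 1) := by
        have : s < 800 * D * (g + 1) := by
          calc s < (g + 1) * (800 * D) := hg2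
            _ = _ := by ring
        omega
      exact lt_of_lt_of_le hN2 (Nat.mul_le_mul this this)
    have h2 : N / (1600 * D) ^ 2 * 4 < (g + 1) * (g + 1) := by
      have h3 : N / (1600 * D) ^ 2 * (1600 * D) ^ 2 ≤ N := Nat.div_mul_le_self _ _
      have h4 : N / (1600 * D) ^ 2 * 4 * (800 * D) ^ 2 < (g + 1) * (g + 1) * (800 * D) ^ 2 := by
        calc N / (1600 * D) ^ 2 * 4 * (800 * D) ^ 2 = N / (1600 * D) ^ 2 * (1600 * D) ^ 2 := by
              ring
          _ ≤ N := h3
          _ < _ := h1
          _ = _ := by ring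
      exact Nat.lt_of_mul_lt_mul_right h4
    have h5 : 0 < g := by
      by_contra h0
      have h0' : g = 0 := by omega
      have h6 : (g + 1) * (g + 1) = 1 := by rw [h0']
      rw [h6] at h2
      omega
    refine ⟨?_, h5⟩
    nlinarith
  obtain ⟨hMg, hg0⟩ := hMg
  have hbig : 800 * D ≤ s := by nlinarith
  have hkv : t ^ 2 * (200 * (t ^ 2) ^ 4) = 200 * D := by rw [hD]; ring
  let U := (s + 1) / 2 - 2 * t ^ 2
  let R := s - (2 * (g * (200 * D)) + U)
  have hU : U + 2 * t ^ 2 = (s + 1) / 2 := by omega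
  have hfit : 2 * (g * (200 * D)) + U ≤ s := by
    have h1 : 2 * (g * (200 * D)) * 2 ≤ s := by nlinarith
    have h2 : 1 ≤ t ^ 2 := Nat.one_le_pow _ _ (by omega)
    omega
  have hR : R + (2 * (g * (200 * D)) + U) = s := by omega
  have hcard : Fintype.card (Vx g (t ^ 2) (200 * (t ^ 2) ^ 4) U R) = Nat.sqrt N := by
    rw [← hs]
    simp only [Fintype.card_sum, Fintype.card_prod, Fintype.card_fin]
    rw [hkv]
    omega
  let σ : Vx g (t ^ 2) (200 * (t ^ 2) ^ 4) U R ≃ Fin (Nat.sqrt N) :=
    Fintype.equivFinOfCardEq hcard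
  have h4t : 4 ≤ t ^ 2 := by nlinarith
  obtain ⟨x, hx1, hx2, hx3⟩ := chain_abs (m := g * g) h4t le_rfl (asmH N σ) (asmH_mono N σ)
    (asmH_base N σ) C out (by
      intro y
      rw [hC]
      unfold asmH
      rw [word_mem]
      have h1 : (∃ S : Finset (Fin (Nat.sqrt N)), Nat.sqrt N ≤ 2 * S.card ∧ ∀ a ∈ S, ∀ b ∈ S, a ≠ b →
          (relabel σ (hostG (fun p => y (finProdFinEquiv p)))).Adj a b) ↔
          ∃ S : Finset (Fin (Nat.sqrt N)), U + 2 * t ^ 2 ≤ S.card ∧ ∀ a ∈ S, ∀ b ∈ S, a ≠ b →
          (relabel σ (hostG (fun p => y (finProdFinEquiv p)))).Adj a b := by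
        constructor
        · rintro ⟨S, h1, h2⟩
          exact ⟨S, by omega, h2⟩
        · rintro ⟨S, h1, h2⟩
          exact ⟨S, by omega, h2⟩
      rw [h1, relabel_clique, host_iff (by omega)]
      constructor
      · rintro ⟨J, hJ⟩
        exact ⟨finProdFinEquiv J, hJ⟩
      · rintro ⟨i, hi⟩
        exact ⟨finProdFinEquiv.symm i, by rw [Equiv.apply_symm_apply]; exact hi⟩)
    (by rw [Nat.sqrt_eq']; exact hsize)
  refine ⟨x, fun i hi => hx1 i (by omega), fun i hi => hx2 i (by omega), fun _ i hi hmem => ?_⟩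
  have := (hC (x i)).mpr hmem
  rw [hx3 i (by omega)] at this
  exact absurd this (by simp)

end Pool.Agent.H520R2.HC
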