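import Pool.Agent.H520R2.NM
import Pool.Agent.H520R2.Raz3

/-!
# The chain argument for circuits with arbitrary non-monotone gates
-/

namespace Pool.Agent.H520R2.NM

open Pool.Agent.H520R2

/-- Abstract form. `e` assembles `m` graphs on `v` vertices into an input of the circuit. -/
theorem chain_abs {ι : Type} {m v k n : ℕ} (hk : 4 ≤ k) (hv : 200 * k ^ 4 ≤ v)
    (e : (Fin m → SimpleGraph (Fin v)) → ι → Bool)
    (he_mono : ∀ y y', y ≤ y' → e y ≤ e y')
    (he_base : ∀ (y : Fin m → SimpleGraph (Fin v)) (J : Fin m), ∀ f ∈ VB ι,
      f ∘ (fun G => e (Function.update y J G)) ∈ GB (Fin v))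
    (C : Circuit ι n) (out : Wire ι n)
    (hC : ∀ y, out.eval (e y) (C.vals (e y)) = true ↔ ∃ i, ¬ (y i).CliqueFree k)
    (hsize : C.size + C.fanins.sum < 2 ^ Nat.sqrt k) :
    ∃ x : ℕ → ι → Bool, (∀ i < m, x i ≤ x (i + 1)) ∧
      (∀ i < m, C.probes (x i) ≠ C.probes (x (i + 1))) ∧
      (∀ i ≤ m, out.eval (x i) (C.vals (x i)) = false) := by
  classical
  have hbot : (⊥ : SimpleGraph (Fin v)).CliqueFree k := by
    intro S hS
    rw [SimpleGraph.isNClique_iff] at hS
    obtain ⟨a, ha, b, hb, hab⟩ := Finset.one_lt_card.mp (show 1 < S.card by omega)
    exact hS.1 ha hb hab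
  have hfree : ∀ y : Fin m → SimpleGraph (Fin v), (∀ i, (y i).CliqueFree k) →
      out.eval (e y) (C.vals (e y)) = false := by
    intro y hy
    rw [← Bool.not_eq_true, hC]
    push Not
    exact hy
  have step : ∀ j ≤ m, ∃ (y : Fin m → SimpleGraph (Fin v)) (x : ℕ → ι → Bool),
      (∀ i : Fin m, j ≤ i → y i = ⊥) ∧ (∀ i, (y i).CliqueFree k) ∧ x j = e y ∧
      (∀ i < j, x i ≤ x (i + 1)) ∧ (∀ i < j, C.probes (x i) ≠ C.probes (x (i + 1))) ∧
      (∀ i ≤ j, out.eval (x i) (C.vals (x i)) = false) := by
    intro j
    induction j with
    | zero =>
      intro _
      refine ⟨fun _ => ⊥, fun _ => e (fun _ => ⊥), fun _ _ => rfl, fun _ => hbot, rfl, by simp,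
        by simp, fun i _ => hfree _ (fun _ => hbot)⟩
    | succ j ih =>
      intro hj
      obtain ⟨y, x, hy1, hy2, hx0, hx1, hx2, hx3⟩ := ih (by omega)
      let J : Fin m := ⟨j, hj⟩
      have hyJ : Function.update y J ⊥ = y := by
        rw [← hy1 J le_rfl]
        exact Function.update_eq_self J y
      have hle : ∀ G, e y ≤ e (Function.update y J G) := by
        intro G
        apply he_mono
        intro i
        by_cases hi : i = J
        · rw [hi, Function.update_self, hy1 J le_rfl]
          exact bot_le
        · rw [Function.update_of_ne hi]
      have hclq : ∀ G : SimpleGraph (Fin v), out.eval (e (Function.update y J G))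
          (C.vals (e (Function.update y J G))) = cliqueFn (Fin v) k G := by
        intro G
        rw [Bool.eq_iff_iff, hC]
        simp only [cliqueFn, decide_eq_true_eq]
        constructor
        · rintro ⟨i, hi⟩
          by_cases hiJ : i = J
          · rw [hiJ, Function.update_self] at hi; exact hi
          · rw [Function.update_of_ne hiJ] at hi; exact absurd (hy2 i) hi
        · intro hG
          exact ⟨J, by rw [Function.update_self]; exact hG⟩
      -- some clique-free graph changes the probes
      have hneg : ∃ G : SimpleGraph (Fin v), G.CliqueFree k ∧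
          C.probes (e (Function.update y J G)) ≠ C.probes (e y) := by
        by_contra hno
        push Not at hno
        obtain ⟨g, hg, hgD⟩ := C.flip out (e y) (Set.range (fun G => e (Function.update y J G)))
          (by rintro _ ⟨G, rfl⟩; exact hle G) (by
            rintro _ ⟨G, rfl⟩ hG
            apply hno
            simp only at hG
            rw [hclq G] at hG
            simpa [cliqueFn] using hG)
        have hcomp := hg.comp (B' := GB (Fin v)) (fun G => e (Function.update y J G))
          (he_base y J)
        have hfun : g ∘ (fun G => e (Function.update y J G)) = cliqueFn (Fin v) k := by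
          funext G
          rw [Function.comp, hgD _ ⟨G, rfl⟩]
          exact hclq G
        rw [hfun] at hcomp
        have := clique_mono_lower (by simpa using hv) hcomp hk
        omega
      obtain ⟨G, hG, hGp⟩ := hneg
      have hy2' : ∀ i, (Function.update y J G i).CliqueFree k := by
        intro i
        by_cases hiJ : i = J
        · rw [hiJ, Function.update_self]; exact hG
        · rw [Function.update_of_ne hiJ]; exact hy2 i
      refine ⟨Function.update y J G,
        fun i => if i ≤ j then x i else e (Function.update y J G), ?_, hy2', ?_, ?_, ?_, ?_⟩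
      · intro i hi
        have hiJ : i ≠ J := by
          intro h
          rw [h] at hi
          simp only [J] at hi
          omega
        rw [Function.update_of_ne hiJ]
        exact hy1 i (by omega)
      · simp
      · intro i hi
        by_cases hij : i = j
        · subst hij
          simp only [le_refl, if_true]
          rw [if_neg (by omega), hx0]
          exact hle G
        · simp only
          rw [if_pos (by omega), if_pos (by omega)]
          exact hx1 i (by omega)
      · intro i hi
        by_cases hij : i = j
        · subst hij
          simp only [le_refl, if_true]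
          rw [if_neg (by omega), hx0]
          exact hGp.symm
        · simp only
          rw [if_pos (by omega), if_pos (by omega)]
          exact hx2 i (by omega)
      · intro i hi
        by_cases hij : i ≤ j
        · simp only [hij, if_true]
          exact hx3 i hij
        · simp only [hij, if_false]
          exact hfree _ hy2'
  obtain ⟨y, x, _, _, _, h1, h2, h3⟩ := step m le_rfl
  exact ⟨x, h1, h2, h3⟩

end Pool.Agent.H520R2.NM
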